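import Pool.Agent.L7h29.AS.Root

/-!
# Specialisation to a dense subfield which is algebraically closed in the field (MP_db3ab1_ag)
-/

set_option autoImplicit false
set_option linter.unusedSectionVars false

open MvPolynomial Pool.Agent.Y129.TA Pool.Agent.Y129.TB

namespace Pool.Agent.L7h29.AS

variable {p : ℕ} [hp : Fact p.Prime] {C F : Type} [Field C] [Field F] [CharP F p]

/-- The characteristic of the perfectoid field is zero. -/
theorem charZero (T : TiltPair p C F) : CharZero C := by
  have hint : ∀ m : ℕ, T.absK (m : C) ≤ 1 := by
    intro m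
    induction m with
    | zero => rw [Nat.cast_zero, map_zero]; exact zero_le_one
    | succ m ih =>
      rw [Nat.cast_succ]
      refine (T.ultraK _ _).trans (max_le ih ?_)
      rw [map_one]
  obtain ⟨q, hqC⟩ := CharP.exists C
  rcases CharP.char_is_prime_or_zero C q with hq | hq
  swap
  · subst hq
    exact CharP.charP_to_charZero C
  exfalso
  have h0 : (q : C) = 0 := CharP.cast_eq_zero C q
  by_cases hqp : q = p
  · rw [hqp] at h0
    exact T.p_ne h0
  · have hcop : Nat.Coprime q p := (Nat.coprime_primes hq hp.out).2 hqp
    have h1 : ((Nat.gcdA q p : ℤ) : C) * (q : C) + ((Nat.gcdB q p : ℤ) : C) * (p : C) = 1 := by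
      have h2 := Nat.gcd_eq_gcd_ab q p
      rw [hcop] at h2
      have h3 := congrArg (fun z : ℤ => (z : C)) h2
      push_cast at h3
      rw [h3]
      ring
    rw [h0, mul_zero, zero_add] at h1
    have h2 : T.absK ((Nat.gcdB q p : ℤ) : C) ≤ 1 := by
      obtain ⟨m, hm | hm⟩ := (Nat.gcdB q p).eq_nat_or_neg
      · rw [hm, Int.cast_natCast]
        exact hint m
      · rw [hm, Int.cast_neg, Int.cast_natCast, AbsoluteValue.map_neg]
        exact hint m
    have h3 : T.absK 1 < 1 := by
      rw [← h1, map_mul]
      calc _ ≤ 1 * T.absK (p : C) := mul_le_mul_of_nonneg_right h2 (T.absK.nonneg _)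
        _ < 1 := by rw [one_mul]; exact T.p_lt
    rw [map_one] at h3
    exact lt_irrefl _ h3

/-- `K` is closed in `C`, and `k` is a dense subfield of `K` which is algebraically closed in
`K`. -/
structure DenseIn (T : TiltPair p C F) (K k : Type) [Field K] [Field k] [Algebra K C]
    [Algebra k K] : Prop where
  closed : ∀ c : C, (∀ ε : ℝ, 0 < ε → ∃ x : K, T.absK (c - algebraMap K C x) ≤ ε) →
    ∃ x : K, algebraMap K C x = c
  dense : ∀ x : K, ∀ ε : ℝ, 0 < ε → ∃ y : k, T.absK (algebraMap K C (algebraMap k K y - x)) ≤ ε
  algClosed : ∀ x : K, IsAlgebraic k x → ∃ y : k, algebraMap k K y = x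

variable {K k : Type} [Field K] [Field k] [Algebra K C] [Algebra k K]

/-- The polynomial relations over `k` between the `s i` hold for the `s' i`. -/
def Specializes {σ : Type} (s : σ → K) (s' : σ → k) : Prop :=
  ∀ f : MvPolynomial σ k, aeval s f = 0 → eval s' f = 0

theorem aeval_cons {R A : Type} [CommRing R] [CommRing A] [Algebra R A] {n : ℕ} (y : A)
    (t : Fin n → A) (f : MvPolynomial (Fin (n + 1)) R) :
    aeval (Fin.cons y t : Fin (n + 1) → A) f =
      ((finSuccEquiv R n f).map (aeval t : MvPolynomial (Fin n) R →ₐ[R] A).toRingHom).eval y := by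
  let φ : MvPolynomial (Fin (n + 1)) R →+* A :=
    (Polynomial.eval₂RingHom (aeval t : MvPolynomial (Fin n) R →ₐ[R] A).toRingHom y).comp
      (finSuccEquiv R n : MvPolynomial (Fin (n + 1)) R →+* Polynomial (MvPolynomial (Fin n) R))
  have h1 : (aeval (Fin.cons y t : Fin (n + 1) → A) :
      MvPolynomial (Fin (n + 1)) R →ₐ[R] A).toRingHom = φ := by
    refine MvPolynomial.ringHom_ext (fun r => ?_) fun i => ?_
    · simp [φ, finSuccEquiv_apply]
    · refine Fin.cases ?_ (fun j => ?_) i
      · simp [φ, finSuccEquiv_X_zero]
      · simp [φ, finSuccEquiv_X_succ]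
  have h2 := congrArg (fun ψ : MvPolynomial (Fin (n + 1)) R →+* A => ψ f) h1
  rw [Polynomial.eval_map]
  exact h2

/-- Polynomials over `k` are continuous on `K`. -/
theorem continuous_aeval (T : TiltPair p C F) {τ : Type} [Finite τ] (t : τ → K)
    (P : MvPolynomial τ k) {δ : ℝ} (hδ : 0 < δ) : ∃ ε : ℝ, 0 < ε ∧ ∀ t' : τ → k,
      (∀ i, T.absK (algebraMap K C (algebraMap k K (t' i) - t i)) ≤ ε) →
        T.absK (algebraMap K C (algebraMap k K (eval t' P) - aeval t P)) ≤ δ := by
  obtain ⟨ε, hε, h⟩ := continuous_eval T t (MvPolynomial.map (algebraMap k K) P) hδ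
  refine ⟨ε, hε, fun t' ht' => ?_⟩
  have h1 := h (fun i => algebraMap k K (t' i)) ht'
  rw [eval_map_alg, eval_map_alg] at h1
  have h2 : aeval (fun i => algebraMap k K (t' i)) P = algebraMap k K (eval t' P) :=
    MvPolynomial.aeval_algebraMap_apply K t' P
  rwa [h2] at h1

/-- **Specialisation.** Close to each tuple of elements of `K` there is a tuple of elements of `k`
which satisfies the same polynomial relations over `k`. -/
theorem exists_specialization [IsAlgClosed C] (T : TiltPair p C F) (H : DenseIn T K k) (n : ℕ) :
    ∀ (s : Fin n → K) {δ : ℝ}, 0 < δ → ∃ s' : Fin n → k, Specializes s s' ∧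
      ∀ i, T.absK (algebraMap K C (algebraMap k K (s' i) - s i)) ≤ δ := by
  classical
  induction n with
  | zero =>
    intro s δ hδ
    refine ⟨fun i => i.elim0, fun f hf => ?_, fun i => i.elim0⟩
    have h1 : f = MvPolynomial.C (coeff 0 f) := (eq_C_of_isEmpty f)
    rw [h1] at hf ⊢
    rw [aeval_C] at hf
    rw [eval_C]
    exact (map_eq_zero _).1 hf
  | succ n ih =>
    intro s δ hδ
    set s0 : K := s 0 with hs0
    set t : Fin n → K := Fin.tail s with ht
    have hs : s = Fin.cons s0 t := (Fin.cons_self_tail s).symm
    set ev : MvPolynomial (Fin n) k →+* K := (aeval t : MvPolynomial (Fin n) k →ₐ[k] K).toRingHom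
      with hev
    have hev' : ∀ g, ev g = aeval t g := fun g => rfl
    -- polynomials which vanish at `s`
    have vanish : ∀ (t' : Fin n → k), Specializes t t' → ∀ g : Polynomial (MvPolynomial (Fin n) k),
        g.map ev = 0 → g.map (aeval t' : MvPolynomial (Fin n) k →ₐ[k] k).toRingHom = 0 := by
      intro t' ht' g hg
      ext j
      rw [Polynomial.coeff_map, Polynomial.coeff_zero]
      have h1 := congrArg (fun q : Polynomial K => q.coeff j) hg
      simp only [Polynomial.coeff_map, Polynomial.coeff_zero] at h1
      have h2 := ht' (g.coeff j) h1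
      exact h2
    by_cases hM : ∃ m : Polynomial (MvPolynomial (Fin n) k), m.map ev ≠ 0 ∧ (m.map ev).eval s0 = 0
    swap
    · -- the first coordinate is transcendental
      push Not at hM
      obtain ⟨y, hy⟩ := H.dense s0 δ hδ
      obtain ⟨t', ht', htt'⟩ := ih t hδ
      refine ⟨Fin.cons y t', fun f hf => ?_, fun i => ?_⟩
      · rw [hs, aeval_cons] at hf
        have h1 : (finSuccEquiv k n f).map ev = 0 := by
          by_contra h2
          exact hM _ h2 hf
        have h2 : aeval (Fin.cons y t' : Fin (n + 1) → k) f = 0 := by
          rw [aeval_cons, vanish t' ht' _ h1, Polynomial.eval_zero]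
        exact h2
      · rw [hs]
        refine Fin.cases ?_ (fun j => ?_) i
        · rw [Fin.cons_zero, Fin.cons_zero]
          exact hy
        · rw [Fin.cons_succ, Fin.cons_succ]
          exact htt' j
    · -- the polynomial of minimal degree
      have hex : ∃ N : ℕ, ∃ m : Polynomial (MvPolynomial (Fin n) k),
          (m.map ev ≠ 0 ∧ (m.map ev).eval s0 = 0) ∧ (m.map ev).natDegree = N := by
        obtain ⟨m, hm⟩ := hM
        exact ⟨_, m, hm, rfl⟩
      set N := Nat.find hex with hN
      obtain ⟨m₁, ⟨hm1, hm2⟩, hm3⟩ := Nat.find_spec hex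
      have hmin : ∀ g : Polynomial (MvPolynomial (Fin n) k), g.map ev ≠ 0 →
          (g.map ev).eval s0 = 0 → N ≤ (g.map ev).natDegree := fun g h1 h2 =>
        Nat.find_min' hex ⟨g, ⟨h1, h2⟩, rfl⟩
      -- truncation
      set m : Polynomial (MvPolynomial (Fin n) k) :=
        ∑ j ∈ Finset.range (N + 1), Polynomial.monomial j (m₁.coeff j) with hm
      have hmc : ∀ j, m.coeff j = if j ≤ N then m₁.coeff j else 0 := by
        intro j
        rw [hm, Polynomial.finsetSum_coeff]
        simp only [Polynomial.coeff_monomial]
        rw [Finset.sum_ite_eq']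
        simp
      have hmN : m.natDegree ≤ N := by
        refine Polynomial.natDegree_le_iff_coeff_eq_zero.2 fun j hj => ?_
        rw [hmc, if_neg (not_le.2 hj)]
      have hmm : m.map ev = m₁.map ev := by
        ext j
        rw [Polynomial.coeff_map, Polynomial.coeff_map, hmc]
        split_ifs with hj
        · rfl
        · have h1 : (m₁.map ev).coeff j = 0 :=
            Polynomial.coeff_eq_zero_of_natDegree_lt (by rw [hm3]; exact not_le.1 hj)
          rw [Polynomial.coeff_map] at h1
          rw [h1, map_zero]
      set M : Polynomial K := m.map ev with hMdef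
      have hMN : M.natDegree = N := by rw [hmm]; exact hm3
      have hM0 : M ≠ 0 := by rw [hmm]; exact hm1
      have hMs : M.eval s0 = 0 := by rw [hmm]; exact hm2
      have hN0 : 0 < N := by
        rcases Nat.eq_zero_or_pos N with h | h
        · exfalso
          rw [h] at hMN
          have h1 := Polynomial.eq_C_of_natDegree_eq_zero hMN
          rw [h1, Polynomial.eval_C] at hMs
          rw [hMs, Polynomial.C_0] at h1
          exact hM0 h1
        · exact h
      have hlead : M.coeff N ≠ 0 := by
        rw [← hMN]
        exact Polynomial.leadingCoeff_ne_zero.2 hM0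
      have hcz : CharZero C := charZero T
      have hczK : CharZero K := (algebraMap K C).charZero
      have hder : M.derivative.eval s0 ≠ 0 := by
        intro h
        have h1 : M.derivative = (Polynomial.derivative m).map ev :=
          Polynomial.derivative_map m ev
        have h2 : M.derivative ≠ 0 := by
          intro h3
          have h4 := Polynomial.derivative_eq_zero.1 h3
          omega
        have h3 := hmin (Polynomial.derivative m) (by rwa [← h1]) (by rw [← h1]; exact h)
        rw [← h1] at h3
        have h4 := Polynomial.natDegree_derivative_lt (p := M) (by omega)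
        omega
      obtain ⟨η, hη, hroot⟩ := exists_root T.ultraK H.closed H.algClosed M hMs hder hδ
      -- continuity
      have hl0 : 0 < T.absK (algebraMap K C (M.coeff N)) := T.absK.pos ((map_ne_zero _).2 hlead)
      obtain ⟨ε₀, hε₀, hc0⟩ := continuous_aeval T t (m.coeff N)
        (half_pos hl0)
      choose ε₁ hε₁ hc1 using fun j : Fin (N + 1) => continuous_aeval T t (m.coeff j) hη
      obtain ⟨ε₂, hε₂, hc2⟩ := exists_pos_le ε₁ hε₁
      obtain ⟨t', ht', htt'⟩ := ih t (δ := min δ (min ε₀ ε₂)) (lt_min hδ (lt_min hε₀ hε₂))
      have htδ : ∀ i, T.absK (algebraMap K C (algebraMap k K (t' i) - t i)) ≤ δ :=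
        fun i => (htt' i).trans (min_le_left _ _)
      have htε₀ : ∀ i, T.absK (algebraMap K C (algebraMap k K (t' i) - t i)) ≤ ε₀ :=
        fun i => (htt' i).trans ((min_le_right _ _).trans (min_le_left _ _))
      have htε₂ : ∀ i, T.absK (algebraMap K C (algebraMap k K (t' i) - t i)) ≤ ε₂ :=
        fun i => (htt' i).trans ((min_le_right _ _).trans (min_le_right _ _))
      set ev' : MvPolynomial (Fin n) k →+* k :=
        (aeval t' : MvPolynomial (Fin n) k →ₐ[k] k).toRingHom with hev'def
      have hev'' : ∀ g, ev' g = eval t' g := fun g => rfl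
      have hh : ev' (m.coeff N) ≠ 0 := by
        intro h
        have h1 := hc0 t' htε₀
        rw [← hev'', h, map_zero, zero_sub, map_neg, AbsoluteValue.map_neg] at h1
        have h2 : M.coeff N = aeval t (m.coeff N) := Polynomial.coeff_map _ _
        rw [← h2] at h1
        linarith
      obtain ⟨α, hα, hαδ⟩ := hroot (m.map ev')
        (by rw [hMN]; exact Polynomial.natDegree_map_le.trans hmN) (fun j => by
          rw [Polynomial.coeff_map]
          have h2 : M.coeff j = aeval t (m.coeff j) := Polynomial.coeff_map _ _
          rw [h2]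
          by_cases hj : j ≤ N
          · exact hc1 ⟨j, Nat.lt_succ_of_le hj⟩ t' fun i => (htε₂ i).trans (hc2 _)
          · rw [hmc, if_neg hj, map_zero, map_zero, map_zero, sub_zero, map_zero, map_zero]
            exact hη.le)
      -- specialisation
      have key : ∀ d : ℕ, ∀ g : Polynomial (MvPolynomial (Fin n) k), g.natDegree ≤ d →
          (g.map ev).eval s0 = 0 → (g.map ev').eval α = 0 := by
        intro d
        induction d with
        | zero =>
          intro g hg hgs
          by_cases hg0 : g.map ev = 0
          · rw [vanish t' ht' g hg0, Polynomial.eval_zero]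
          · have h1 := (hmin g hg0 hgs).trans (Polynomial.natDegree_map_le.trans hg)
            omega
        | succ d ihd =>
          intro g hg hgs
          by_cases hg0 : g.map ev = 0
          · rw [vanish t' ht' g hg0, Polynomial.eval_zero]
          · have h1 := (hmin g hg0 hgs).trans (Polynomial.natDegree_map_le.trans hg)
            set g1 : Polynomial (MvPolynomial (Fin n) k) := Polynomial.C (m.coeff N) * g -
              Polynomial.C (g.coeff (d + 1)) * Polynomial.X ^ (d + 1 - N) * m with hg1
            have h2 : g1.natDegree ≤ d := by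
              refine Polynomial.natDegree_le_iff_coeff_eq_zero.2 fun j hj => ?_
              rw [hg1, Polynomial.coeff_sub, Polynomial.coeff_C_mul, mul_assoc,
                Polynomial.coeff_C_mul, Polynomial.coeff_X_pow_mul']
              rcases Nat.eq_or_lt_of_le (Nat.succ_le_of_lt hj) with h3 | h3
              · have h4 : j = d + 1 := h3.symm
                subst h4
                rw [if_pos (Nat.sub_le _ _)]
                have h5 : d + 1 - (d + 1 - N) = N := by omega
                rw [h5]
                ring
              · rw [Polynomial.coeff_eq_zero_of_natDegree_lt (lt_of_le_of_lt hg h3), mul_zero,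
                  zero_sub]
                split_ifs with h4
                · have h5 : N < j - (d + 1 - N) := by omega
                  rw [Polynomial.coeff_eq_zero_of_natDegree_lt (lt_of_le_of_lt hmN h5), mul_zero,
                    neg_zero]
                · rw [mul_zero, neg_zero]
            have h3 := ihd g1 h2 (by
              rw [hg1, Polynomial.map_sub, Polynomial.map_mul, Polynomial.map_mul,
                Polynomial.eval_sub, Polynomial.eval_mul, Polynomial.eval_mul, hgs, ← hMdef, hMs,
                mul_zero, mul_zero, sub_zero])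
            rw [hg1, Polynomial.map_sub, Polynomial.map_mul, Polynomial.map_mul,
              Polynomial.eval_sub, Polynomial.eval_mul, Polynomial.eval_mul, hα, mul_zero,
              sub_zero, Polynomial.map_C, Polynomial.eval_C] at h3
            exact (mul_eq_zero.1 h3).resolve_left hh
      refine ⟨Fin.cons α t', fun f hf => ?_, fun i => ?_⟩
      · rw [hs, aeval_cons] at hf
        have h2 : aeval (Fin.cons α t' : Fin (n + 1) → k) f = 0 := by
          rw [aeval_cons]
          exact key _ _ le_rfl hf
        exact h2
      · rw [hs]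
        refine Fin.cases ?_ (fun j => ?_) i
        · rw [Fin.cons_zero, Fin.cons_zero, ← neg_sub, map_neg, AbsoluteValue.map_neg]
          exact hαδ
        · rw [Fin.cons_succ, Fin.cons_succ]
          exact htδ j

end Pool.Agent.L7h29.AS
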