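import Pool.Agent.R388.TP.ProductMain

/-!
# Q1 is stable under limits (MP_db3ab1_ag)
-/

set_option autoImplicit false
set_option linter.unusedSectionVars false

open MvPolynomial Pool.Agent.Y129.TA Pool.Agent.Y129.TB Pool.Agent.R388.TP

namespace Pool.Agent.L7h29.AS

variable {p : ℕ} [hp : Fact p.Prime] {C F K E : Type} [Field C] [Field F] [CharP F p] [Field K]
  [Field E] [Algebra K C] [Algebra E F] {ι : Type} [Fintype ι]

/-- A form vanishes at the origin. -/
theorem aeval_zero_of_pos {P : MvPolynomial ι K} {D : ℕ} (hP : P.IsHomogeneous D) (hD : 0 < D) :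
    aeval (0 : ι → C) P = 0 := by
  rw [← eval_map_alg]
  exact form_zero (form_map ⟨D, hD, hP⟩)

/-- A homogeneous polynomial with small coefficients is small on the unit ball. -/
theorem abs_eval_le [IsAlgClosed C] (T : TiltPair p C F) (P : MvPolynomial ι K) {δ : ℝ} (hδ : 0 ≤ δ)
    (hP : ∀ μ, T.absK (algebraMap K C (coeff μ P)) ≤ δ) {v : ι → C}
    (hv : ∀ i, T.absK (v i) ≤ 1) : T.absK (aeval v P) ≤ δ := by
  classical
  rw [aeval_def, eval₂_eq']
  refine ultra_sum T.ultraK _ _ hδ fun α _ => ?_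
  rw [map_mul, map_prod]
  have h1 : ∏ i, T.absK (v i ^ α i) ≤ 1 := by
    refine Finset.prod_le_one (fun i _ => T.absK.nonneg _) fun i _ => ?_
    rw [map_pow]
    exact pow_le_one₀ (T.absK.nonneg _) (hv i)
  calc _ ≤ T.absK (algebraMap K C (coeff α P)) * 1 :=
        mul_le_mul_of_nonneg_left h1 (T.absK.nonneg _)
    _ ≤ δ := by rw [mul_one]; exact hP α

/-- A tube in terms of normalised points. -/
theorem inTube_of_normal [Infinite C] (T : TiltPair p C F) {Y : Set (ι → F)} (hY : ∀ a : F, ∀ y ∈ Y, a • y ∈ Y)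
    {P : MvPolynomial ι K} {D : ℕ} (hP : P.IsHomogeneous D) {ε : ℝ} (hε : 0 < ε)
    (h : ∀ y ∈ Y, (∀ i, T.absF (y i) ≤ 1) → (∃ i, T.absF (y i) = 1) →
      T.absK (aeval (fun i => T.sharp (y i)) P) ≤ ε)
    (h0 : aeval (0 : ι → C) P = 0) [Nonempty ι] {y : ι → F} (hy : y ∈ Y) : InTube T P D ε y := by
  intro B hB
  by_cases hy0 : y = 0
  · have h1 : (fun i => T.sharp (y i)) = (0 : ι → C) := by
      funext i
      rw [hy0]
      exact T.sharp_zero
    have hB0 : 0 ≤ B := (T.absF.nonneg _).trans (hB (Classical.arbitrary ι))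
    rw [h1, h0, map_zero]
    positivity
  · obtain ⟨a, ha, h1, t, ht⟩ := exists_normal T hy0
    have h2 := h (a • y) (hY a y hy) h1 ⟨t, ht⟩
    have h5 : (fun i => T.sharp ((a • y) i)) = fun i => T.sharp a * T.sharp (y i) :=
      funext fun i => by
        rw [← map_mul]
        rfl
    rw [h5, aeval_smul hP, map_mul, map_pow, T.abs_sharp] at h2
    have hA : 0 < T.absF a := T.absF.pos ha
    have h6 : 1 ≤ T.absF a * B := by
      rw [← ht, map_mul]
      exact mul_le_mul_of_nonneg_left (hB t) hA.le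
    have h7 : T.absF a ^ D * T.absK (aeval (fun i => T.sharp (y i)) P) ≤
        T.absF a ^ D * (ε * B ^ D) := by
      refine h2.trans ?_
      calc ε = ε * 1 ^ D := by rw [one_pow, mul_one]
        _ ≤ ε * (T.absF a * B) ^ D :=
            mul_le_mul_of_nonneg_left (pow_le_pow_left₀ zero_le_one h6 _) hε.le
        _ = T.absF a ^ D * (ε * B ^ D) := by rw [mul_pow]; ring
    exact le_of_mul_le_mul_left h7 (pow_pos hA _)

/-- `X` contains the support of a limit of closed subsets `X'` with the property `P`: there are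
forms `g l` over `K` whose common zeros lie in `X`, and for every `δ > 0` there is a closed subset
`X'` with the property `P`, there are numbers `m l > 0` and forms `G l` over `K` of degree
`m l * deg (g l)` which vanish on `X'`, such that the absolute values of the coefficients of
`G l - g l ^ m l` are at most `δ ^ m l`. -/
def IsLimit (T : TiltPair p C F) (K : Type) [Field K] [Algebra K C] (X : Set (ι → C))
    (P : Set (ι → C) → Prop) : Prop :=
  ∃ (r : ℕ) (g : Fin r → MvPolynomial ι K) (D : Fin r → ℕ),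
    (∀ l, 0 < D l ∧ (g l).IsHomogeneous (D l)) ∧ (∀ x, (∀ l, aeval x (g l) = 0) → x ∈ X) ∧
    ∀ δ : ℝ, 0 < δ → ∃ (X' : Set (ι → C)) (m : Fin r → ℕ) (G : Fin r → MvPolynomial ι K), P X' ∧
      ∀ l, 0 < m l ∧ (G l).IsHomogeneous (m l * D l) ∧ (∀ x ∈ X', aeval x (G l) = 0) ∧
        ∀ μ, T.absK (algebraMap K C (coeff μ (G l - g l ^ m l))) ≤ δ ^ m l

theorem approximable_of_limit [IsAlgClosed C] [Nonempty ι] (T : TiltPair p C F)
    {X : Set (ι → C)} {d : ℕ}
    (h : IsLimit T K X fun X' => Approximable T K E X' d) : Approximable T K E X d := by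
  classical
  have : Infinite C := IsAlgClosed.instInfinite
  obtain ⟨r, g, D, hg, hX, hlim⟩ := h
  intro s P DP hPD hPX ε hε
  -- Nullstellensatz
  have s1 : ∀ k : Fin s, ∃ δ : ℝ, 0 < δ ∧ ∀ v : ι → C, (∀ i, T.absK (v i) ≤ 1) →
      (∀ l, T.absK (eval v (MvPolynomial.map (algebraMap K C) (g l))) ≤ δ) →
      T.absK (eval v (MvPolynomial.map (algebraMap K C) (P k))) ≤ ε := by
    intro k
    refine small T.ultraK _ _ (fun v hv => ?_) hε
    rw [eval_map_alg]
    refine hPX k v (hX v fun l => ?_)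
    rw [← eval_map_alg]
    exact hv l
  choose δ₁ hδ₁ hs1 using s1
  obtain ⟨δ, hδ, hδ'⟩ := exists_pos_le δ₁ hδ₁
  obtain ⟨X', m, G, hX', hG⟩ := hlim δ hδ
  -- a common bound for the `δ ^ m l`
  obtain ⟨η, hη, hη'⟩ := exists_pos_le (fun l => δ ^ m l) fun l => pow_pos hδ _
  obtain ⟨Y, hY1, hY2, hY3, hY4⟩ := hX' r G (fun l => m l * D l) (fun l => (hG l).2.1)
    (fun l => (hG l).2.2.1) η hη
  refine ⟨Y, hY1, hY2, hY3, fun y hy k => ?_⟩
  refine inTube_of_normal T hY1.2 (hPD k) hε ?_ ?_ hy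
  · intro y hy hy1 _
    have h1 : ∀ l, T.absK (aeval (fun i => T.sharp (y i)) (g l)) ≤ δ := by
      intro l
      have h2 := hY4 y hy l 1 hy1
      rw [one_pow, mul_one] at h2
      have h3 := abs_eval_le T (G l - g l ^ m l) (pow_nonneg hδ.le (m l)) (hG l).2.2.2
        (v := fun i => T.sharp (y i)) (fun i => by rw [T.abs_sharp]; exact hy1 i)
      have h4 : T.absK (aeval (fun i => T.sharp (y i)) (g l)) ^ m l ≤ δ ^ m l := by
        have h5 : aeval (fun i => T.sharp (y i)) (g l) ^ m l =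
            aeval (fun i => T.sharp (y i)) (G l) +
              -aeval (fun i => T.sharp (y i)) (G l - g l ^ m l) := by
          rw [map_sub, map_pow]
          ring
        rw [← map_pow, h5]
        refine (T.ultraK _ _).trans (max_le (h2.trans (hη' l)) ?_)
        rw [AbsoluteValue.map_neg]
        exact h3
      exact le_of_pow_le_pow_left₀ (hG l).1.ne' hδ.le h4
    have h2 := hs1 k (fun i => T.sharp (y i)) (fun i => by rw [T.abs_sharp]; exact hy1 i)
      (fun l => by
        rw [eval_map_alg]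
        exact (h1 l).trans (hδ' k))
    rw [eval_map_alg] at h2
    exact h2
  · exact hPX k 0 (hX 0 fun l => aeval_zero_of_pos (hg l).2 (hg l).1)

/-- Polynomials are continuous. -/
theorem continuous_eval (T : TiltPair p C F) {τ : Type} [Finite τ] (t₀ : τ → K)
    (P : MvPolynomial τ K) {δ : ℝ} (hδ : 0 < δ) : ∃ ε : ℝ, 0 < ε ∧ ∀ t : τ → K,
      (∀ i, T.absK (algebraMap K C (t i - t₀ i)) ≤ ε) →
        T.absK (algebraMap K C (eval t P - eval t₀ P)) ≤ δ := by
  classical
  induction P using MvPolynomial.induction_on generalizing δ with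
  | C a => exact ⟨1, one_pos, fun t _ => by
      rw [eval_C, eval_C, sub_self, map_zero, map_zero]
      exact hδ.le⟩
  | add P Q hP hQ =>
    obtain ⟨ε₁, h1, h1'⟩ := hP hδ
    obtain ⟨ε₂, h2, h2'⟩ := hQ hδ
    refine ⟨min ε₁ ε₂, lt_min h1 h2, fun t ht => ?_⟩
    have h3 : eval t (P + Q) - eval t₀ (P + Q) =
        (eval t P - eval t₀ P) + (eval t Q - eval t₀ Q) := by
      rw [map_add, map_add]
      ring
    rw [h3, map_add (algebraMap K C)]
    exact (T.ultraK _ _).trans (max_le (h1' t fun i => (ht i).trans (min_le_left _ _))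
      (h2' t fun i => (ht i).trans (min_le_right _ _)))
  | mul_X P i hP =>
    set A : ℝ := T.absK (algebraMap K C (eval t₀ P)) with hA
    set B : ℝ := T.absK (algebraMap K C (t₀ i)) with hB
    have hA0 : 0 ≤ A := T.absK.nonneg _
    have hB0 : 0 ≤ B := T.absK.nonneg _
    obtain ⟨ε₁, h1, h1'⟩ := hP (δ := min 1 (δ / (B + 1))) (lt_min one_pos (by positivity))
    refine ⟨min ε₁ (min (δ / (A + 1)) (min δ 1)), lt_min h1 (lt_min (by positivity)
      (lt_min hδ one_pos)), fun t ht => ?_⟩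
    have h3 : eval t (P * X i) - eval t₀ (P * X i) =
        ((eval t P - eval t₀ P) * (t i - t₀ i) + (eval t P - eval t₀ P) * t₀ i) +
          eval t₀ P * (t i - t₀ i) := by
      rw [map_mul, map_mul, eval_X, eval_X]
      ring
    have hP1 := h1' t fun i => (ht i).trans (min_le_left _ _)
    have ht1 : T.absK (algebraMap K C (t i - t₀ i)) ≤ δ / (A + 1) :=
      (ht i).trans ((min_le_right _ _).trans (min_le_left _ _))
    have ht2 : T.absK (algebraMap K C (t i - t₀ i)) ≤ δ :=
      (ht i).trans ((min_le_right _ _).trans ((min_le_right _ _).trans (min_le_left _ _)))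
    rw [h3, map_add (algebraMap K C), map_add (algebraMap K C), map_mul (algebraMap K C),
      map_mul (algebraMap K C), map_mul (algebraMap K C)]
    refine (T.ultraK _ _).trans (max_le ((T.ultraK _ _).trans (max_le ?_ ?_)) ?_)
    · rw [map_mul]
      calc _ ≤ 1 * δ := mul_le_mul (hP1.trans (min_le_left _ _)) ht2 (T.absK.nonneg _) zero_le_one
        _ = δ := one_mul _
    · rw [map_mul]
      calc _ ≤ δ / (B + 1) * B :=
            mul_le_mul (hP1.trans (min_le_right _ _)) le_rfl hB0 (by positivity)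
        _ ≤ δ := by
            rw [div_mul_eq_mul_div, div_le_iff₀ (by positivity)]
            nlinarith
    · rw [map_mul]
      calc _ ≤ A * (δ / (A + 1)) := mul_le_mul le_rfl ht1 (T.absK.nonneg _) hA0
        _ ≤ δ := by
            rw [mul_div_assoc', div_le_iff₀ (by positivity)]
            nlinarith

/-- The member for the parameter `t` of a family of polynomials. -/
noncomputable def member {τ : Type} (𝒢 : MvPolynomial ι (MvPolynomial τ K)) (t : τ → K) :
    MvPolynomial ι K := MvPolynomial.map (eval t) 𝒢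

/-- Families: limits of the parameters give limits of closed subsets. -/
theorem isLimit_of_family (T : TiltPair p C F) {τ : Type} [Finite τ] {r : ℕ}
    (𝒢 : Fin r → MvPolynomial ι (MvPolynomial τ K)) (D : Fin r → ℕ) (hD : ∀ l, 0 < D l)
    (h𝒢 : ∀ l, (𝒢 l).IsHomogeneous (D l)) (t₀ : τ → K) {X : Set (ι → C)}
    (hX : ∀ x, (∀ l, aeval x (member (𝒢 l) t₀) = 0) → x ∈ X) {P : Set (ι → C) → Prop}
    (h : ∀ ε : ℝ, 0 < ε → ∃ (t : τ → K) (X' : Set (ι → C)),
      (∀ i, T.absK (algebraMap K C (t i - t₀ i)) ≤ ε) ∧ P X' ∧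
        ∀ l, ∀ x ∈ X', aeval x (member (𝒢 l) t) = 0) : IsLimit T K X P := by
  classical
  refine ⟨r, fun l => member (𝒢 l) t₀, D, fun l => ⟨hD l, (h𝒢 l).map _⟩, hX, fun δ hδ => ?_⟩
  have h1 : ∀ (l : Fin r) (μ : (𝒢 l).support), ∃ ε : ℝ, 0 < ε ∧ ∀ t : τ → K,
      (∀ i, T.absK (algebraMap K C (t i - t₀ i)) ≤ ε) →
        T.absK (algebraMap K C (eval t (coeff μ.1 (𝒢 l)) - eval t₀ (coeff μ.1 (𝒢 l)))) ≤ δ :=
    fun l μ => continuous_eval T t₀ _ hδ
  choose ε₁ hε₁ h1' using fun (x : (l : Fin r) × (𝒢 l).support) => h1 x.1 x.2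
  obtain ⟨ε, hε, hε'⟩ := exists_pos_le ε₁ hε₁
  obtain ⟨t, X', ht, hX', hl⟩ := h ε hε
  refine ⟨X', fun _ => 1, fun l => member (𝒢 l) t, hX', fun l => ⟨one_pos, ?_, hl l, fun μ => ?_⟩⟩
  · rw [one_mul]
    exact (h𝒢 l).map _
  · rw [pow_one, pow_one]
    have h2 : coeff μ (member (𝒢 l) t - member (𝒢 l) t₀) =
        eval t (coeff μ (𝒢 l)) - eval t₀ (coeff μ (𝒢 l)) := by
      rw [coeff_sub, member, member, coeff_map, coeff_map]
    rw [h2]
    by_cases hμ : μ ∈ (𝒢 l).support
    · exact h1' ⟨l, ⟨μ, hμ⟩⟩ t fun i => (ht i).trans (hε' _)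
    · rw [notMem_support_iff.1 hμ, map_zero, map_zero, sub_zero, map_zero, map_zero]
      exact hδ.le

/-- The dimension of an approximable closed cone is at least `d`. -/
theorem dimGE_of_approximable [IsAlgClosed C] [IsAlgClosed F] (T : Tilting p C F)
    {X : Set (ι → C)} {d : ℕ} (hX : IsConeOver K X)
    (h : Approximable T.toTiltPair K E X d) : DimGE X d := by
  have : Infinite C := IsAlgClosed.instInfinite
  obtain ⟨r, g, hg, hXg⟩ := exists_gens hX (nonempty_of_approximable T.toTiltPair h)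
  have h3 := dimGE_of_small T (small_of_approximable T.toTiltPair g hg hXg h)
  rw [← hXg] at h3
  exact h3

/-- The common zeros of forms are a closed cone. -/
theorem cone_of_forms [Infinite C] {r : ℕ} (g : Fin r → MvPolynomial ι K)
    (hg : ∀ l, IsForm (g l)) : IsConeOver K {x : ι → C | ∀ l, aeval x (g l) = 0} := by
  refine ⟨⟨Ideal.span (Set.range g), ?_⟩, ?_⟩
  · ext x
    rw [mem_zeroLocus_iff]
    constructor
    · intro h f hf
      have h1 : Ideal.span (Set.range g) ≤ RingHom.ker (aeval x : MvPolynomial ι K →ₐ[K] C) := by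
        refine Ideal.span_le.2 ?_
        rintro _ ⟨l, rfl⟩
        exact h l
      exact h1 hf
    · intro h l
      exact h _ (Ideal.subset_span ⟨l, rfl⟩)
  · intro a x hx l
    obtain ⟨D, -, hD⟩ := hg l
    have h1 := aeval_smul hD a x
    rw [hx l, mul_zero] at h1
    exact h1

theorem limit_main [IsAlgClosed C] [IsAlgClosed F] (T : Tilting p C F) (B : BaseField T K E)
    {n d : ℕ} {X : Set (Fin (n + 1) → C)} (hX : IsConeOver K X)
    (h : IsLimit T.toTiltPair K X (fun X' =>
      IsToricUnion K X' d ∨ Approximable T.toTiltPair K E X' d)) :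
    DimGE X d ∧ Approximable T.toTiltPair K E X d := by
  have h1 : Approximable T.toTiltPair K E X d := by
    obtain ⟨r, g, D, hg, hgX, hlim⟩ := h
    refine approximable_of_limit T.toTiltPair ⟨r, g, D, hg, hgX, fun δ hδ => ?_⟩
    obtain ⟨X', m, G, hX', hG⟩ := hlim δ hδ
    refine ⟨X', m, G, ?_, hG⟩
    rcases hX' with hX' | hX'
    · exact (q1_of_toricUnion T B (Or.inl hX')).2
    · exact hX'
  exact ⟨dimGE_of_approximable T hX h1, h1⟩

theorem family_main [IsAlgClosed C] [IsAlgClosed F] (T : Tilting p C F) (B : BaseField T K E)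
    {n d r N : ℕ} (g : Fin r → MvPolynomial (Fin (n + 1)) (MvPolynomial (Fin N) K))
    (D : Fin r → ℕ) (hD : ∀ l, 0 < D l ∧ (g l).IsHomogeneous (D l)) (t₀ : Fin N → K)
    (h : ∀ ε : ℝ, 0 < ε → ∃ (t : Fin N → K) (X' : Set (Fin (n + 1) → C)),
        (∀ i, T.absK (algebraMap K C (t i - t₀ i)) ≤ ε) ∧
        (IsToricUnion K X' d ∨ Approximable T.toTiltPair K E X' d) ∧
        ∀ l, ∀ x ∈ X', aeval x (member (g l) t) = 0) :
      DimGE {x : Fin (n + 1) → C | ∀ l, aeval x (member (g l) t₀) = 0} d ∧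
      Approximable T.toTiltPair K E {x : Fin (n + 1) → C | ∀ l, aeval x (member (g l) t₀) = 0} d := by
  have : Infinite C := IsAlgClosed.instInfinite
  exact limit_main T B (cone_of_forms _ fun l => ⟨D l, (hD l).1, (hD l).2.map _⟩)
    (isLimit_of_family T.toTiltPair g D (fun l => (hD l).1) (fun l => (hD l).2) t₀
      (fun x hx => hx) h)

end Pool.Agent.L7h29.AS
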