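import Pool.Agent.L7h29.AS.Spec

/-!
# Q1 and dense subfields: the main theorem (MP_db3ab1_ag)
-/

set_option autoImplicit false
set_option linter.unusedSectionVars false

open MvPolynomial Pool.Agent.Y129.TA Pool.Agent.Y129.TB Pool.Agent.R388.TP Pool.Agent.N150.JN

namespace Pool.Agent.L7h29.AS

variable {p : ℕ} [hp : Fact p.Prime] {C F : Type} [Field C] [Field F] [CharP F p] [IsAlgClosed C]
variable {K k : Type} [Field K] [Field k] [Algebra K C] [Algebra k K] [Algebra k C]
  [IsScalarTower k K C]

/-- The dimension does not drop under specialisation. -/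
theorem dimGE_specialise [Infinite k] {σ κ : Type} [Finite σ] [Finite κ] {m d : ℕ}
    (s : Fin m → K) (s' : Fin m → k) (hs : Specializes s s')
    (G : κ → MvPolynomial σ (MvPolynomial (Fin m) k)) (D : κ → ℕ)
    (hG : ∀ a, (G a).IsHomogeneous (D a))
    (h : DimGE (zeros C fun a =>
      MvPolynomial.map (aeval s : MvPolynomial (Fin m) k →ₐ[k] K).toRingHom (G a)) d) :
    DimGE (zeros C fun a =>
      MvPolynomial.map (aeval s' : MvPolynomial (Fin m) k →ₐ[k] k).toRingHom (G a)) d := by
  classical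
  set θ : MvPolynomial (Fin m) k →+* K := (aeval s : MvPolynomial (Fin m) k →ₐ[k] K).toRingHom
    with hθ
  set φ : MvPolynomial (Fin m) k →+* k := (aeval s' : MvPolynomial (Fin m) k →ₐ[k] k).toRingHom
    with hφ
  by_contra hno
  let J : Ideal (MvPolynomial σ C) := Ideal.span (Set.range fun a =>
    MvPolynomial.map (algebraMap k C) (MvPolynomial.map φ (G a)))
  have hJ : zeroLocus C J = zeros C fun a => MvPolynomial.map φ (G a) := by
    ext x
    rw [mem_zeroLocus_iff]
    constructor
    · intro h1 a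
      have h2 := h1 _ (Ideal.subset_span ⟨a, rfl⟩)
      rwa [aeval_map_algebraMap] at h2
    · intro h1 f hf
      have h2 : J ≤ RingHom.ker (aeval x : MvPolynomial σ C →ₐ[C] C) := by
        refine Ideal.span_le.2 ?_
        rintro _ ⟨a, rfl⟩
        change aeval x (MvPolynomial.map (algebraMap k C) (MvPolynomial.map φ (G a))) = 0
        rw [aeval_map_algebraMap]
        exact h1 a
      exact h2 hf
  have : Fintype σ := Fintype.ofFinite σ
  have : Infinite C := IsAlgClosed.instInfinite
  have hcone : ∀ a : C, ∀ y ∈ zeroLocus C J, a • y ∈ zeroLocus C J := by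
    intro a y hy
    rw [hJ] at hy ⊢
    intro b
    have h1 := aeval_smul ((hG b).map φ) a y
    rw [hy b, mul_zero] at h1
    exact h1
  have hch : ¬ HasChain J (d + 1) := fun h1 => hno (by
    have h2 := dimGE_of_chain h1
    rwa [hJ] at h2)
  obtain ⟨ℓ, hℓ, hℓ0⟩ := exists_forms' (K := k) (fun i : σ => (X i : MvPolynomial σ C))
    (fun i => isHomogeneous_X _ _) d J hcone
    (fun y _ hy => funext fun i => by
      have h1 := hy i
      rwa [eval_X] at h1) hch
  obtain ⟨ρ, N, hρ, hρX⟩ := no_zero_lift (L := C) φ (MvPolynomial.C : k →+* MvPolynomial (Fin m) k)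
    (fun c => by
      change aeval s' (MvPolynomial.C c) = c
      rw [aeval_C]
      rfl)
    (Sum.elim G fun j => MvPolynomial.map (MvPolynomial.C : k →+* MvPolynomial (Fin m) k) (ℓ j))
    (Sum.elim D fun _ => 1) (by
      rintro (a | j)
      · exact hG a
      · exact (hℓ j).map _) (by
      intro x hx
      refine hℓ0 x (by rw [hJ]; exact fun a => hx (Sum.inl a)) fun j => ?_
      have h1 := hx (Sum.inr j)
      rw [Sum.elim_inr, MvPolynomial.map_map] at h1
      have h2 : φ.comp (MvPolynomial.C : k →+* MvPolynomial (Fin m) k) = RingHom.id k := by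
        refine RingHom.ext fun c => ?_
        change aeval s' (MvPolynomial.C c) = c
        rw [aeval_C]
        rfl
      rw [h2, MvPolynomial.map_id] at h1
      have h3 : (fun i => eval x (X i : MvPolynomial σ C)) = x := funext fun i => eval_X i
      rw [h3]
      exact h1)
  have hθρ : θ ρ ≠ 0 := by
    intro h1
    have h2 : φ ρ = 0 := hs ρ h1
    rw [hρ] at h2
    exact one_ne_zero h2
  obtain ⟨y, hy, hy0, hyℓ⟩ := h (fun j => MvPolynomial.map (algebraMap k C) (ℓ j))
    fun j => ⟨1, one_pos, (hℓ j).map _⟩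
  apply hy0
  funext i
  have h1 : Ideal.span (Set.range (Sum.elim G fun j =>
      MvPolynomial.map (MvPolynomial.C : k →+* MvPolynomial (Fin m) k) (ℓ j))) ≤
      RingHom.ker ((aeval y : MvPolynomial σ K →ₐ[K] C).toRingHom.comp (MvPolynomial.map θ)) := by
    refine Ideal.span_le.2 ?_
    rintro _ ⟨a | j, rfl⟩
    · exact hy a
    · change aeval y (MvPolynomial.map θ (MvPolynomial.map
        (MvPolynomial.C : k →+* MvPolynomial (Fin m) k) (ℓ j))) = 0
      rw [MvPolynomial.map_map]
      have h2 : θ.comp (MvPolynomial.C : k →+* MvPolynomial (Fin m) k) = algebraMap k K := by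
        refine RingHom.ext fun c => ?_
        change aeval s (MvPolynomial.C c) = _
        rw [aeval_C]
      rw [h2, aeval_map_algebraMap]
      have h3 := hyℓ j
      rwa [eval_map_alg] at h3
  have h2 := h1 (hρX i)
  have h3 : algebraMap K C (θ ρ) * y i ^ N = 0 := by
    have h4 : aeval y (MvPolynomial.map θ (MvPolynomial.C ρ * X i ^ N)) = 0 := h2
    rw [map_mul, map_mul, map_pow, map_pow, map_C, map_X, aeval_X, aeval_C] at h4
    exact h4
  rcases mul_eq_zero.1 h3 with h4 | h4
  · exact absurd ((map_eq_zero _).1 h4) hθρ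
  · exact IsReduced.eq_zero _ ⟨N, h4⟩

/-- **Dense subfields.** Every smooth closed subscheme over `K` is a limit of smooth closed
subschemes over `k` of the same dimension. -/
theorem exists_approximation (T : TiltPair p C F) (H : DenseIn T K k) {n d r : ℕ}
    (g : Fin r → MvPolynomial (Fin (n + 1)) K) (D : Fin r → ℕ) (hD : ∀ l, 0 < D l)
    (hg : ∀ l, (g l).IsHomogeneous (D l)) (hsm : SmoothScheme C g)
    (hge : DimGE (zeros C g) d) (hle : DimLEOver K (zeros C g) d) {δ : ℝ} (hδ : 0 < δ) :
    ∃ g' : Fin r → MvPolynomial (Fin (n + 1)) k, (∀ l, (g' l).IsHomogeneous (D l)) ∧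
      SmoothScheme C g' ∧ DimGE (zeros C g') d ∧ DimLEOver k (zeros C g') d ∧
      ∀ l μ, T.absK (algebraMap K C (algebraMap k K (coeff μ (g' l)) - coeff μ (g l))) ≤ δ := by
  classical
  have hcz : CharZero C := charZero T
  have hczK : CharZero K := (algebraMap K C).charZero
  have hczk : CharZero k := (algebraMap k K).charZero
  have hinf : Infinite k := inferInstance
  have hCinf : Infinite C := IsAlgClosed.instInfinite
  obtain ⟨q, hq, hq0⟩ := hle
  choose Dq hDq hqD using hq
  obtain ⟨w, hwfin, c, i, j, h, e, A, hh, hA, hch⟩ := exists_charts g hsm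
  -- all polynomials with indeterminate coefficients
  obtain ⟨m, s, Q, hQ, hQD⟩ := exists_lift (k := k)
    (Sum.elim g (Sum.elim q (Sum.elim h
      (fun x : (t : w) × (Fin r × Fin (c t)) => A x.1 x.2.1 x.2.2))))
  set θ : MvPolynomial (Fin m) k →+* K := (aeval s : MvPolynomial (Fin m) k →ₐ[k] K).toRingHom
    with hθ
  let G : Fin r → MvPolynomial (Fin (n + 1)) (MvPolynomial (Fin m) k) := fun l => Q (Sum.inl l)
  let q₁ : Fin (d + 1) → MvPolynomial (Fin (n + 1)) (MvPolynomial (Fin m) k) :=
    fun l => Q (Sum.inr (Sum.inl l))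
  let h₁ : w → MvPolynomial (Fin (n + 1)) (MvPolynomial (Fin m) k) :=
    fun t => Q (Sum.inr (Sum.inr (Sum.inl t)))
  let A₁ : ∀ t : w, Fin r → Fin (c t) → MvPolynomial (Fin (n + 1)) (MvPolynomial (Fin m) k) :=
    fun t l a => Q (Sum.inr (Sum.inr (Sum.inr ⟨t, l, a⟩)))
  have hGθ : ∀ l, MvPolynomial.map θ (G l) = g l := fun l => hQ (Sum.inl l)
  have hqθ : ∀ l, MvPolynomial.map θ (q₁ l) = q l := fun l => hQ (Sum.inr (Sum.inl l))
  have hhθ : ∀ t, MvPolynomial.map θ (h₁ t) = h t := fun t => hQ (Sum.inr (Sum.inr (Sum.inl t)))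
  have hAθ : ∀ t l a, MvPolynomial.map θ (A₁ t l a) = A t l a :=
    fun t l a => hQ (Sum.inr (Sum.inr (Sum.inr ⟨t, l, a⟩)))
  have hGD : ∀ l, (G l).IsHomogeneous (D l) := fun l => hQD (Sum.inl l) _ (hg l)
  have hqD₁ : ∀ l, (q₁ l).IsHomogeneous (Dq l) := fun l => hQD (Sum.inr (Sum.inl l)) _ (hqD l)
  have hhD : ∀ t, (h₁ t).IsHomogeneous (e t) :=
    fun t => hQD (Sum.inr (Sum.inr (Sum.inl t))) _ (hh t)
  let v₁ : w → MvPolynomial (Fin (n + 1)) (MvPolynomial (Fin m) k) :=
    fun t => h₁ t * minor G (i t) (j t)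
  have hvθ : ∀ t, MvPolynomial.map θ (v₁ t) = h t * minor g (i t) (j t) := by
    intro t
    rw [map_mul, hhθ, map_minor]
    congr 2
    exact funext hGθ
  have hvD : ∀ t, (v₁ t).IsHomogeneous (e t + ∑ a, (D (i t a) - 1)) := fun t =>
    (hhD t).mul (minor_homogeneous hGD _ _)
  -- the open conditions
  obtain ⟨δ₁, hδ₁, ho1⟩ := open_no_zero (k := k) T
    (Sum.elim g fun t => h t * minor g (i t) (j t)) (fun x hx =>
      hch x (fun l => hx (Sum.inl l)) fun t => hx (Sum.inr t))
  obtain ⟨δ₂, hδ₂, ho2⟩ := open_no_zero (k := k) T (Sum.elim g q) (fun x hx =>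
      hq0 x (fun l => hx (Sum.inl l)) fun t => hx (Sum.inr t))
  -- closeness
  have hcl := fun x : (Fin r ⊕ (Fin (d + 1) ⊕ w)) => close T s
    (Sum.elim G (Sum.elim q₁ v₁) x) (δ := min δ (min δ₁ δ₂)) (lt_min hδ (lt_min hδ₁ hδ₂))
  have hwF : Fintype w := Fintype.ofFinite w
  choose ε₁ hε₁ hcl' using hcl
  obtain ⟨ε, hε, hε'⟩ := exists_pos_le ε₁ hε₁
  obtain ⟨s', hs', hss'⟩ := exists_specialization T H m s hε
  have hclose := fun x => hcl' x s' fun i => (hss' i).trans (hε' x)
  set φ : MvPolynomial (Fin m) k →+* k := (aeval s' : MvPolynomial (Fin m) k →ₐ[k] k).toRingHom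
    with hφ
  have hGc : ∀ l μ, T.absK (algebraMap K C (algebraMap k K
      (coeff μ (MvPolynomial.map φ (G l))) - coeff μ (g l))) ≤ min δ (min δ₁ δ₂) := by
    intro l μ
    have h1 := hclose (Sum.inl l) μ
    rw [Sum.elim_inl] at h1
    rw [← hGθ l]
    exact h1
  have hqc : ∀ l μ, T.absK (algebraMap K C (algebraMap k K
      (coeff μ (MvPolynomial.map φ (q₁ l))) - coeff μ (q l))) ≤ min δ (min δ₁ δ₂) := by
    intro l μ
    have h1 := hclose (Sum.inr (Sum.inl l)) μ
    rw [Sum.elim_inr, Sum.elim_inl] at h1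
    rw [← hqθ l]
    exact h1
  have hvc : ∀ t μ, T.absK (algebraMap K C (algebraMap k K
      (coeff μ (MvPolynomial.map φ (v₁ t))) - coeff μ (h t * minor g (i t) (j t)))) ≤
        min δ (min δ₁ δ₂) := by
    intro t μ
    have h1 := hclose (Sum.inr (Sum.inr t)) μ
    rw [Sum.elim_inr, Sum.elim_inr] at h1
    rw [← hvθ t]
    exact h1
  have hm1 : min δ (min δ₁ δ₂) ≤ δ₁ := (min_le_right _ _).trans (min_le_left _ _)
  have hm2 : min δ (min δ₁ δ₂) ≤ δ₂ := (min_le_right _ _).trans (min_le_right _ _)
  refine ⟨fun l => MvPolynomial.map φ (G l), fun l => (hGD l).map _, ?_, ?_, ?_, fun l μ =>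
    (hGc l μ).trans (min_le_left _ _)⟩
  · -- smoothness
    intro x hx0 hx
    obtain ⟨t, ht⟩ : ∃ t, aeval x (MvPolynomial.map φ (v₁ t)) ≠ 0 := by
      by_contra hno
      push Not at hno
      refine hx0 (ho1 (Sum.elim (fun l => MvPolynomial.map φ (G l))
        (fun t => MvPolynomial.map φ (v₁ t))) ?_ ?_ x ?_)
      · rintro (l | t)
        · exact ⟨_, (hGD l).map _⟩
        · exact ⟨_, (hvD t).map _⟩
      · rintro (l | t) μ
        · exact (hGc l μ).trans hm1
        · exact (hvc t μ).trans hm1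
      · rintro (l | t)
        · exact hx l
        · exact hno t
    have hv : MvPolynomial.map φ (v₁ t) = MvPolynomial.map φ (h₁ t) *
        minor (fun l => MvPolynomial.map φ (G l)) (i t) (j t) := by
      rw [map_mul, map_minor]
    rw [hv, map_mul] at ht
    refine ⟨c t, i t, j t, MvPolynomial.map φ (h₁ t), e t, (hhD t).map _,
      left_ne_zero_of_mul ht, fun l => ?_, right_ne_zero_of_mul ht⟩
    -- the identities
    have h1 : MvPolynomial.map θ (∑ a, A₁ t l a * G (i t a) - h₁ t * G l) = 0 := by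
      rw [map_sub, map_sum, map_mul, hhθ, hGθ, ← hA t l, sub_eq_zero]
      refine Finset.sum_congr rfl fun a _ => ?_
      rw [map_mul, hAθ, hGθ]
    have h2 : MvPolynomial.map φ (∑ a, A₁ t l a * G (i t a) - h₁ t * G l) = 0 := by
      ext μ
      rw [coeff_map, coeff_zero]
      have h3 := congrArg (fun P => coeff μ P) h1
      simp only [coeff_map, coeff_zero] at h3
      exact hs' _ h3
    rw [map_sub, map_sum, map_mul, sub_eq_zero] at h2
    rw [← h2]
    refine Ideal.sum_mem _ fun a _ => ?_
    rw [map_mul]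
    exact Ideal.mul_mem_left _ _ (Ideal.subset_span ⟨a, rfl⟩)
  · -- the dimension is at least `d`
    refine dimGE_specialise s s' hs' G D hGD ?_
    have h1 : (fun l => MvPolynomial.map θ (G l)) = g := funext hGθ
    rw [← hθ, h1]
    exact hge
  · -- the dimension is at most `d`
    refine ⟨fun l => MvPolynomial.map φ (q₁ l), fun l => ⟨Dq l, hDq l, (hqD₁ l).map _⟩, ?_⟩
    intro x hx hxq
    refine ho2 (Sum.elim (fun l => MvPolynomial.map φ (G l))
      (fun t => MvPolynomial.map φ (q₁ t))) ?_ ?_ x ?_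
    · rintro (l | t)
      · exact ⟨_, (hGD l).map _⟩
      · exact ⟨_, (hqD₁ t).map _⟩
    · rintro (l | t) μ
      · exact (hGc l μ).trans hm2
      · exact (hqc t μ).trans hm2
    · rintro (l | t)
      · exact hx l
      · exact hxq t

/-- **Q1 over `K` for the smooth closed subschemes of `ℙ^n` of dimension `d` which are defined over
the field `k`**: `g` are forms over `k` which define a smooth closed subscheme of dimension `d` of
projective space. For `k = K` these are all smooth closed subschemes over `K` of dimension `d`. -/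
def Q1Smooth (T : TiltPair p C F) (K E k : Type) [Field K] [Field E] [Field k] [Algebra K C]
    [Algebra E F] [Algebra k C] (n d : ℕ) : Prop :=
  ∀ (r : ℕ) (g : Fin r → MvPolynomial (Fin (n + 1)) k), (∀ l, IsForm (g l)) →
    SmoothScheme C g → DimGE (zeros C g) d → DimLEOver k (zeros C g) d →
      Approximable T K E (zeros C g) d

theorem smoothScheme_map {σ τ : Type} {g : τ → MvPolynomial σ k} (hg : SmoothScheme C g) :
    SmoothScheme C fun l => MvPolynomial.map (algebraMap k K) (g l) := by
  intro x hx0 hx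
  obtain ⟨c, i, j, h, e, h1, h2, h3, h4⟩ := hg x hx0 fun l => by
    rw [← aeval_tower (K := K)]
    exact hx l
  refine ⟨c, i, j, MvPolynomial.map (algebraMap k K) h, e, h1.map _, by rwa [aeval_tower],
    fun l => ?_, ?_⟩
  · obtain ⟨A, hA⟩ := (Ideal.mem_span_range_iff_exists_fun).1 (h3 l)
    refine (Ideal.mem_span_range_iff_exists_fun).2
      ⟨fun a => MvPolynomial.map (algebraMap k K) (A a), ?_⟩
    rw [← map_mul, ← hA, map_sum]
    exact Finset.sum_congr rfl fun a _ => (map_mul _ _ _).symm
  · rw [← map_minor, aeval_tower]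
    exact h4

/-- Q1 for smooth closed subschemes over `K` and over `k`. -/
theorem dense_main {E : Type} [Field E] [Algebra E F] (T : TiltPair p C F) (H : DenseIn T K k)
    (n d : ℕ) : Q1Smooth T K E K n d ↔ Q1Smooth T K E k n d := by
  classical
  constructor
  · intro hK r g hg hsm hge hle
    have hz : zeros C (fun l => MvPolynomial.map (algebraMap k K) (g l)) = zeros C g := by
      ext x
      exact forall_congr' fun l => by rw [aeval_tower]
    have h1 := hK r (fun l => MvPolynomial.map (algebraMap k K) (g l)) (fun l => form_map (hg l))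
      (smoothScheme_map hsm) (by rwa [hz]) (by
        obtain ⟨q, hq, hq0⟩ := hle
        rw [hz]
        refine ⟨fun j => MvPolynomial.map (algebraMap k K) (q j), fun j => form_map (hq j),
          fun y hy hqy => hq0 y hy fun j => ?_⟩
        rw [← aeval_tower (K := K)]
        exact hqy j)
    rwa [hz] at h1
  · intro hk r g hg hsm hge hle
    choose D hD hgD using hg
    refine approximable_of_limit T ⟨r, g, D, fun l => ⟨hD l, hgD l⟩, fun x hx => hx,
      fun δ hδ => ?_⟩
    obtain ⟨g', hg', h1, h2, h3, h4⟩ := exists_approximation T H g D hD hgD hsm hge hle hδ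
    refine ⟨zeros C g', fun _ => 1, fun l => MvPolynomial.map (algebraMap k K) (g' l),
      hk r g' (fun l => ⟨D l, hD l, hg' l⟩) h1 h2 h3, fun l => ⟨one_pos, ?_, fun x hx => ?_,
      fun μ => ?_⟩⟩
    · rw [one_mul]
      exact (hg' l).map _
    · rw [aeval_tower]
      exact hx l
    · rw [pow_one, pow_one, coeff_sub, coeff_map]
      exact h4 l μ

end Pool.Agent.L7h29.AS
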