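import Pool.Agent.L7h29.AS.Dense

/-!
# Forms over a ring which have no common zero after a specialisation (MP_db3ab1_ag)
-/

set_option autoImplicit false
set_option linter.unusedSectionVars false

open MvPolynomial Pool.Agent.Y129.TA Pool.Agent.Y129.TB

namespace Pool.Agent.L7h29.AS

/-- If forms over the ring `R` have no common zero (in an algebraically closed field `L`) after the
specialisation `φ : R → k`, then there is `ρ` in `R` with `φ ρ = 1` such that all `ρ X_i ^ N` are in the
ideal generated by the forms. -/
theorem no_zero_lift {R k L : Type} [CommRing R] [Field k] [Field L] [Algebra k L] [IsAlgClosed L]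
    {σ κ : Type} [Finite σ] [Finite κ] (φ : R →+* k) (ψ : k →+* R) (hφψ : ∀ c, φ (ψ c) = c)
    (G : κ → MvPolynomial σ R) (e : κ → ℕ) (hG : ∀ a, (G a).IsHomogeneous (e a))
    (h0 : ∀ x : σ → L, (∀ a, aeval x (MvPolynomial.map φ (G a)) = 0) → x = 0) :
    ∃ (ρ : R) (N : ℕ), φ ρ = 1 ∧
      ∀ i, C ρ * X i ^ N ∈ Ideal.span (Set.range G) := by
  classical
  have : Fintype σ := Fintype.ofFinite σ
  have : Fintype κ := Fintype.ofFinite κ
  set J : Ideal (MvPolynomial σ k) := Ideal.span (Set.range fun a => MvPolynomial.map φ (G a))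
    with hJ
  have h1 : Ideal.span (Set.range (X : σ → MvPolynomial σ k)) ≤ J.radical := by
    rw [Ideal.span_le]
    rintro _ ⟨i, rfl⟩
    rw [← vanishingIdeal_zeroLocus_eq_radical (K := L)]
    change X i ∈ vanishingIdeal k (zeroLocus L J)
    rw [mem_vanishingIdeal_iff]
    intro v hv
    rw [h0 v fun a => (mem_zeroLocus_iff.1 hv) _ (Ideal.subset_span ⟨a, rfl⟩), aeval_X]
    rfl
  obtain ⟨N, hN⟩ := Ideal.exists_pow_le_of_le_radical_of_fg h1 (IsNoetherian.noetherian _)
  -- all forms of degree `N` are in `J`
  have h2 : ∀ f : MvPolynomial σ k, f.IsHomogeneous N → f ∈ J := fun f hf =>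
    hN (mem_pow_of_homogeneous hf)
  set M : Submodule R (MvPolynomial σ R) := homogeneousSubmodule σ R N with hM
  set P : Submodule R (MvPolynomial σ R) :=
    (Ideal.span (Set.range G)).restrictScalars R with hP
  have h3 : M ≤ P ⊔ (RingHom.ker φ) • M := by
    intro f hf
    have hf' : f.IsHomogeneous N := hf
    have h4 := h2 (MvPolynomial.map φ f) (hf'.map φ)
    obtain ⟨c, hc⟩ := Ideal.mem_span_range_iff_exists_fun.1 h4
    -- homogeneous coefficients
    let c' : κ → MvPolynomial σ k := fun a =>
      if e a ≤ N then homogeneousComponent (N - e a) (c a) else 0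
    have hc' : ∑ a, c' a * MvPolynomial.map φ (G a) = MvPolynomial.map φ f := by
      have h5 := congrArg (homogeneousComponent N) hc
      rw [map_sum, homogeneousComponent_of_mem ((mem_homogeneousSubmodule _ _).2 (hf'.map φ)),
        if_pos rfl] at h5
      rw [← h5]
      refine Finset.sum_congr rfl fun a _ => ?_
      rw [component_mul ((hG a).map φ)]
      simp only [c']
      split_ifs with h6
      · rfl
      · rw [zero_mul]
    set S : MvPolynomial σ R := ∑ a, MvPolynomial.map ψ (c' a) * G a with hS
    have hSP : S ∈ P := Ideal.sum_mem _ fun a _ =>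
      Ideal.mul_mem_left _ _ (Ideal.subset_span ⟨a, rfl⟩)
    have hSM : S.IsHomogeneous N := by
      refine IsHomogeneous.sum _ _ _ fun a _ => ?_
      by_cases h6 : e a ≤ N
      · have h7 : c' a = homogeneousComponent (N - e a) (c a) := if_pos h6
        have h8 := ((homogeneousComponent_isHomogeneous (N - e a) (c a)).map ψ).mul (hG a)
        rw [Nat.sub_add_cancel h6] at h8
        rw [h7]
        exact h8
      · have h7 : c' a = 0 := if_neg h6
        rw [h7, map_zero, zero_mul]
        exact isHomogeneous_zero _ _ _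
    have hφS : MvPolynomial.map φ S = MvPolynomial.map φ f := by
      rw [← hc', hS, map_sum]
      refine Finset.sum_congr rfl fun a _ => ?_
      rw [map_mul, MvPolynomial.map_map]
      have h6 : φ.comp ψ = RingHom.id k := RingHom.ext hφψ
      rw [h6, MvPolynomial.map_id]
    have h9 : f = S + (f - S) := by ring
    rw [h9]
    refine Submodule.add_mem_sup hSP ?_
    rw [← support_sum_monomial_coeff (f - S)]
    refine Submodule.sum_mem _ fun ν hν => ?_
    have h10 : monomial ν (coeff ν (f - S)) = coeff ν (f - S) • (monomial ν (1 : R)) := by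
      rw [smul_monomial, smul_eq_mul, mul_one]
    rw [h10]
    refine Submodule.smul_mem_smul ?_ ?_
    · rw [RingHom.mem_ker, coeff_sub, map_sub, ← coeff_map, ← coeff_map, hφS, sub_self]
    · have h11 : (f - S).IsHomogeneous N := hf'.sub hSM
      have h12 : Finsupp.weight 1 ν = N := h11 (mem_support_iff.1 hν)
      exact (isHomogeneous_monomial (R := R) 1 (by
        rw [← h12, Finsupp.degree_eq_weight_one]
        rfl))
  obtain ⟨ρ, hρ, hρM⟩ := Submodule.exists_sub_one_mem_and_smul_le_of_fg_of_le_sup
    (homogeneousSubmodule_fg σ R N) le_rfl h3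
  refine ⟨ρ, N, ?_, fun i => ?_⟩
  · rw [RingHom.mem_ker, map_sub, map_one, sub_eq_zero] at hρ
    exact hρ
  · have h4 : (X i ^ N : MvPolynomial σ R) ∈ M := isHomogeneous_X_pow i N
    have h5 := hρM (Submodule.smul_mem_pointwise_smul _ ρ M h4)
    rw [smul_eq_C_mul] at h5
    exact h5

end Pool.Agent.L7h29.AS
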