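import Pool.Agent.L7h29.AS.Lim

/-!
# Roots of polynomials near a given approximate root, in a closed subfield (MP_db3ab1_ag)
-/

set_option autoImplicit false
set_option linter.unusedSectionVars false

open Pool.Agent.Y129.TA

namespace Pool.Agent.L7h29.AS

section est

variable {C : Type} [Field C] [IsAlgClosed C] {a : AbsoluteValue C ℝ} (ha : ∀ x y, a (x + y) ≤ max (a x) (a y))

include ha

theorem ultra_sub (x y : C) : a (x - y) ≤ max (a x) (a y) := by
  rw [sub_eq_add_neg]
  refine (ha _ _).trans ?_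
  rw [AbsoluteValue.map_neg]

theorem natCast_le (n : ℕ) : a (n : C) ≤ 1 := by
  induction n with
  | zero => rw [Nat.cast_zero, map_zero]; exact zero_le_one
  | succ n ih =>
    rw [Nat.cast_succ]
    refine (ha _ _).trans (max_le ih ?_)
    rw [map_one]

theorem pow_sub_le {x x₀ : C} {B D : ℝ} (hB : 1 ≤ B) (hx : a x ≤ B) (hx₀ : a x₀ ≤ B)
    (h : a (x - x₀) ≤ D) (j : ℕ) : a (x ^ j - x₀ ^ j) ≤ D * B ^ j := by
  have hD : 0 ≤ D := (a.nonneg _).trans h
  have hB0 : 0 ≤ B := zero_le_one.trans hB
  induction j with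
  | zero => rw [pow_zero, pow_zero, sub_self, map_zero]; positivity
  | succ j ih =>
    have h1 : x ^ (j + 1) - x₀ ^ (j + 1) = x * (x ^ j - x₀ ^ j) + x₀ ^ j * (x - x₀) := by ring
    rw [h1]
    refine (ha _ _).trans (max_le ?_ ?_)
    · rw [map_mul]
      calc a x * a (x ^ j - x₀ ^ j) ≤ B * (D * B ^ j) :=
            mul_le_mul hx ih (a.nonneg _) hB0
        _ = D * B ^ (j + 1) := by ring
    · rw [map_mul, map_pow]
      calc a x₀ ^ j * a (x - x₀) ≤ B ^ j * D :=
            mul_le_mul (pow_le_pow_left₀ (a.nonneg _) hx₀ j) h (a.nonneg _) (by positivity)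
        _ ≤ B ^ j * B * D := by
            have : B ^ j * D ≤ B ^ j * D * B := le_mul_of_one_le_right (by positivity) hB
            linarith [this, mul_right_comm (B ^ j) D B]
        _ = D * B ^ (j + 1) := by ring

theorem diffquot_pow {x y x₀ : C} {B D : ℝ} (hB : 1 ≤ B) (hx : a x ≤ B) (hy : a y ≤ B)
    (hx₀ : a x₀ ≤ B) (h1 : a (x - x₀) ≤ D) (h2 : a (y - x₀) ≤ D) (j : ℕ) :
    ∃ q : C, x ^ j - y ^ j = (x - y) * q ∧ a (q - j * x₀ ^ (j - 1)) ≤ D * B ^ j := by
  have hD : 0 ≤ D := (a.nonneg _).trans h1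
  have hB0 : 0 ≤ B := zero_le_one.trans hB
  induction j with
  | zero => exact ⟨0, by ring, by rw [Nat.cast_zero, zero_mul, sub_zero, map_zero]; positivity⟩
  | succ j ih =>
    obtain ⟨q, hq, hq'⟩ := ih
    refine ⟨x * q + y ^ j, ?_, ?_⟩
    · have h3 : x ^ (j + 1) - y ^ (j + 1) = x * (x ^ j - y ^ j) + (x - y) * y ^ j := by ring
      rw [h3, hq]
      ring
    · rcases Nat.eq_zero_or_pos j with rfl | hj
      · rw [Nat.cast_zero, zero_mul, sub_zero] at hq'
        have h3 : x * q + y ^ 0 - ((0 + 1 : ℕ) : C) * x₀ ^ (0 + 1 - 1) = x * q := by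
          simp
        rw [h3, map_mul]
        calc a x * a q ≤ B * (D * B ^ 0) := mul_le_mul hx hq' (a.nonneg _) hB0
          _ = D * B ^ (0 + 1) := by ring
      · obtain ⟨i, rfl⟩ : ∃ i, j = i + 1 := ⟨j - 1, by omega⟩
        rw [Nat.add_sub_cancel] at hq' ⊢
        have h3 : x * q + y ^ (i + 1) - ((i + 1 + 1 : ℕ) : C) * x₀ ^ (i + 1) =
            x * (q - ((i + 1 : ℕ) : C) * x₀ ^ i) +
              (((i + 1 : ℕ) : C) * x₀ ^ i * (x - x₀) + (y ^ (i + 1) - x₀ ^ (i + 1))) := by
          push_cast
          ring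
        rw [h3]
        refine (ha _ _).trans (max_le ?_ ((ha _ _).trans (max_le ?_ ?_)))
        · rw [map_mul]
          calc a x * a (q - ((i + 1 : ℕ) : C) * x₀ ^ i) ≤ B * (D * B ^ (i + 1)) :=
                mul_le_mul hx hq' (a.nonneg _) hB0
            _ = D * B ^ (i + 1 + 1) := by ring
        · rw [map_mul, map_mul, map_pow]
          calc a ((i + 1 : ℕ) : C) * a x₀ ^ i * a (x - x₀) ≤ 1 * B ^ i * D := by
                refine mul_le_mul (mul_le_mul (natCast_le ha _)
                  (pow_le_pow_left₀ (a.nonneg _) hx₀ i) (by positivity) zero_le_one) h1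
                  (a.nonneg _) (by positivity)
            _ = D * B ^ i := by ring
            _ ≤ D * B ^ (i + 1 + 1) :=
                mul_le_mul_of_nonneg_left (pow_le_pow_right₀ hB (by omega)) hD
        · refine (pow_sub_le ha hB hy hx₀ h2 (i + 1)).trans ?_
          exact mul_le_mul_of_nonneg_left (pow_le_pow_right₀ hB (by omega)) hD

/-- The difference quotient of a polynomial is close to the derivative. -/
theorem diffquot {x y x₀ : C} {A B D : ℝ} (hA : 0 ≤ A) (hB : 1 ≤ B) (hx : a x ≤ B) (hy : a y ≤ B)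
    (hx₀ : a x₀ ≤ B) (h1 : a (x - x₀) ≤ D) (h2 : a (y - x₀) ≤ D) (f : Polynomial C) {N : ℕ}
    (hN : f.natDegree ≤ N) (hf : ∀ j, a (f.coeff j) ≤ A) :
    ∃ q : C, f.eval x - f.eval y = (x - y) * q ∧ a (q - f.derivative.eval x₀) ≤ A * (D * B ^ N) := by
  classical
  have hD : 0 ≤ D := (a.nonneg _).trans h1
  have hB0 : 0 ≤ B := zero_le_one.trans hB
  choose q hq hq' using diffquot_pow ha hB hx hy hx₀ h1 h2
  refine ⟨∑ j ∈ Finset.range (N + 1), f.coeff j * q j, ?_, ?_⟩
  · rw [Polynomial.eval_eq_sum_range' (Nat.lt_succ_of_le hN),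
      Polynomial.eval_eq_sum_range' (Nat.lt_succ_of_le hN), ← Finset.sum_sub_distrib,
      Finset.mul_sum]
    refine Finset.sum_congr rfl fun j _ => ?_
    rw [← mul_sub, hq j]
    ring
  · have h3 : f.derivative.eval x₀ =
        ∑ j ∈ Finset.range (N + 1), f.coeff j * (j * x₀ ^ (j - 1)) := by
      rw [Polynomial.derivative_eval, Polynomial.sum_over_range' _ _ (N + 1)
        (Nat.lt_succ_of_le hN)]
      · refine Finset.sum_congr rfl fun j _ => by ring
      · intro n
        ring
    rw [h3, ← Finset.sum_sub_distrib]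
    refine ultra_sum ha _ _ (by positivity) fun j hj => ?_
    rw [← mul_sub, map_mul]
    refine mul_le_mul (hf j) ((hq' j).trans ?_) (a.nonneg _) hA
    exact mul_le_mul_of_nonneg_left (pow_le_pow_right₀ hB
      (Nat.le_of_lt_succ (Finset.mem_range.1 hj))) hD

end est


section newton

variable {C K : Type} [Field C] [IsAlgClosed C] [Field K] [Algebra K C] {a : AbsoluteValue C ℝ}

/-- Newton's method (with a fixed slope): a root `α` in `C` of a polynomial over `K` near a point
`x₀` of `K` with a large derivative lies in `K`, if `K` is closed in `C`. -/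
theorem root_mem (ha : ∀ x y, a (x + y) ≤ max (a x) (a y))
    (hK : ∀ c : C, (∀ ε : ℝ, 0 < ε → ∃ x : K, a (c - algebraMap K C x) ≤ ε) →
      ∃ x : K, algebraMap K C x = c)
    (f : Polynomial K) {A B D c : ℝ} {N : ℕ} (hA : 0 ≤ A) (hB : 1 ≤ B)
    (hDB : D ≤ B) (hN : f.natDegree ≤ N) (hf : ∀ j, a (algebraMap K C (f.coeff j)) ≤ A)
    {x₀ : K} {α : C}
    (hx₀ : a (algebraMap K C x₀) ≤ B) (hα : a α ≤ B) (hD : a (algebraMap K C x₀ - α) ≤ D)
    (hc : c = a (algebraMap K C (f.derivative.eval x₀))) (hc0 : 0 < c)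
    (hlt : A * (D * B ^ N) < c) (hroot : (f.map (algebraMap K C)).eval α = 0) :
    ∃ x : K, algebraMap K C x = α := by
  classical
  have hD0 : 0 ≤ D := (a.nonneg _).trans hD
  have hB0 : 0 ≤ B := zero_le_one.trans hB
  set θ : ℝ := A * (D * B ^ N) / c with hθ
  have hθ0 : 0 ≤ θ := by positivity
  have hθ1 : θ < 1 := by rwa [hθ, div_lt_one hc0]
  set F := f.map (algebraMap K C) with hF
  set s : K := f.derivative.eval x₀ with hs
  have hs' : F.derivative.eval (algebraMap K C x₀) = algebraMap K C s := by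
    rw [hF, Polynomial.derivative_map, Polynomial.eval_map_algebraMap, hs,
      Polynomial.aeval_algebraMap_apply_eq_algebraMap_eval]
  have hs0 : algebraMap K C s ≠ 0 := by
    intro h
    rw [h, map_zero] at hc
    exact hc0.ne' hc
  -- one step
  have step : ∀ x : K, a (algebraMap K C x - α) ≤ D → a (algebraMap K C (x - f.eval x / s) - α) ≤
      θ * a (algebraMap K C x - α) := by
    intro x hx
    have h1 : a (algebraMap K C x - algebraMap K C x₀) ≤ D := by
      have h2 : algebraMap K C x - algebraMap K C x₀ =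
          (algebraMap K C x - α) - (algebraMap K C x₀ - α) := by ring
      rw [h2]
      exact (ultra_sub ha _ _).trans (max_le hx hD)
    have h2 : a (α - algebraMap K C x₀) ≤ D := by
      rw [AbsoluteValue.map_sub]
      exact hD
    have hxB : a (algebraMap K C x) ≤ B := by
      have h3 : algebraMap K C x = (algebraMap K C x - α) + α := by ring
      rw [h3]
      exact (ha _ _).trans (max_le (hx.trans hDB) hα)
    obtain ⟨q, hq, hq'⟩ := diffquot ha hA hB hxB hα hx₀ h1 h2 F
      (Polynomial.natDegree_map_le.trans hN) (fun j => by rw [hF, Polynomial.coeff_map]; exact hf j)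
    rw [hroot, sub_zero] at hq
    rw [hs'] at hq'
    have h4 : algebraMap K C (x - f.eval x / s) - α =
        (algebraMap K C x - α) * ((algebraMap K C s - q) / algebraMap K C s) := by
      have h5 : algebraMap K C (f.eval x) = (algebraMap K C x - α) * q := by
        rw [← hq, hF, Polynomial.eval_map_algebraMap,
          Polynomial.aeval_algebraMap_apply_eq_algebraMap_eval]
      rw [map_sub, map_div₀, h5]
      field_simp
      ring
    rw [h4, map_mul, map_div₀, ← hc, mul_comm, AbsoluteValue.map_sub a (algebraMap K C s) q]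
    refine mul_le_mul_of_nonneg_right ?_ (a.nonneg _)
    rw [hθ]
    exact div_le_div_of_nonneg_right hq' hc0.le
  have iter : ∀ n : ℕ, ∃ x : K, a (algebraMap K C x - α) ≤ θ ^ n * D := by
    intro n
    induction n with
    | zero => exact ⟨x₀, by rw [pow_zero, one_mul]; exact hD⟩
    | succ n ih =>
      obtain ⟨x, hx⟩ := ih
      have h1 : a (algebraMap K C x - α) ≤ D := by
        refine hx.trans ?_
        exact mul_le_of_le_one_left hD0 (pow_le_one₀ hθ0 hθ1.le)
      refine ⟨_, (step x h1).trans ?_⟩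
      calc θ * a (algebraMap K C x - α) ≤ θ * (θ ^ n * D) := mul_le_mul_of_nonneg_left hx hθ0
        _ = θ ^ (n + 1) * D := by ring
  refine hK α fun ε hε => ?_
  obtain ⟨n, hn⟩ : ∃ n : ℕ, θ ^ n * (D + 1) < ε := by
    obtain ⟨n, hn⟩ := exists_pow_lt_of_lt_one (div_pos hε (by linarith : 0 < D + 1)) hθ1
    exact ⟨n, by rwa [lt_div_iff₀ (by linarith)] at hn⟩
  obtain ⟨x, hx⟩ := iter n
  refine ⟨x, ?_⟩
  rw [AbsoluteValue.map_sub]
  refine hx.trans (le_of_lt (lt_of_le_of_lt ?_ hn))
  exact mul_le_mul_of_nonneg_left (by linarith) (pow_nonneg hθ0 n)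

theorem sum_le (ha : ∀ x y, a (x + y) ≤ max (a x) (a y)) (g : Polynomial C) {η B : ℝ} {N : ℕ}
    (hη : 0 ≤ η) (hB : 1 ≤ B) (hN : g.natDegree ≤ N) (hg : ∀ j, a (g.coeff j) ≤ η) {x : C}
    (hx : a x ≤ B) : a (g.eval x) ≤ η * B ^ N ∧ a (g.derivative.eval x) ≤ η * B ^ N := by
  have hB0 : 0 ≤ B := zero_le_one.trans hB
  constructor
  · rw [Polynomial.eval_eq_sum_range' (Nat.lt_succ_of_le hN)]
    refine ultra_sum ha _ _ (by positivity) fun j hj => ?_
    rw [map_mul, map_pow]
    refine mul_le_mul (hg j) ?_ (by positivity) hη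
    exact (pow_le_pow_left₀ (a.nonneg _) hx j).trans
      (pow_le_pow_right₀ hB (Nat.le_of_lt_succ (Finset.mem_range.1 hj)))
  · have h0 : g.derivative.eval x =
        ∑ j ∈ Finset.range (N + 1), g.coeff j * j * x ^ (j - 1) := by
      rw [Polynomial.derivative_eval, Polynomial.sum_over_range' _ _ (N + 1)
        (Nat.lt_succ_of_le hN)]
      intro n
      ring
    rw [h0]
    refine ultra_sum ha _ _ (by positivity) fun j hj => ?_
    rw [map_mul, map_mul, map_pow]
    have h1 : a (g.coeff j) * a (j : C) ≤ η := by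
      calc a (g.coeff j) * a (j : C) ≤ a (g.coeff j) * 1 :=
            mul_le_mul_of_nonneg_left (natCast_le ha j) (a.nonneg _)
        _ ≤ η := by rw [mul_one]; exact hg j
    refine mul_le_mul h1 ?_ (pow_nonneg (a.nonneg _) _) hη
    exact (pow_le_pow_left₀ (a.nonneg _) hx _).trans
      (pow_le_pow_right₀ hB ((Nat.sub_le _ _).trans (Nat.le_of_lt_succ (Finset.mem_range.1 hj))))

theorem pow_le_prod (s : Multiset C) (x : C) {D : ℝ} (hD : 0 ≤ D) (h : ∀ r ∈ s, D ≤ a (x - r)) :
    D ^ Multiset.card s ≤ a (s.map fun r => x - r).prod := by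
  induction s using Multiset.induction_on with
  | empty => simp
  | cons r s ih =>
    rw [Multiset.card_cons, pow_succ', Multiset.map_cons, Multiset.prod_cons, map_mul]
    exact mul_le_mul (h r (Multiset.mem_cons_self r s))
      (ih fun t ht => h t (Multiset.mem_cons_of_mem ht)) (pow_nonneg hD _) (a.nonneg _)

/-- A simple root in `K` of a polynomial over `K` is close to roots in `k` of the polynomials over
`k` which are close to it, if `K` is closed in `C` and `k` is algebraically closed in `K`. -/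
theorem exists_root (ha : ∀ x y, a (x + y) ≤ max (a x) (a y))
    (hK : ∀ c : C, (∀ ε : ℝ, 0 < ε → ∃ x : K, a (c - algebraMap K C x) ≤ ε) →
      ∃ x : K, algebraMap K C x = c)
    {k : Type} [Field k] [Algebra k K]
    (hk : ∀ x : K, IsAlgebraic k x → ∃ y : k, algebraMap k K y = x)
    (M : Polynomial K) {x₀ : K} (h0 : M.eval x₀ = 0) (h1 : M.derivative.eval x₀ ≠ 0)
    {δ : ℝ} (hδ : 0 < δ) : ∃ η : ℝ, 0 < η ∧ ∀ f : Polynomial k, f.natDegree ≤ M.natDegree →
      (∀ j, a (algebraMap K C (algebraMap k K (f.coeff j) - M.coeff j)) ≤ η) →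
      ∃ α : k, f.eval α = 0 ∧ a (algebraMap K C (x₀ - algebraMap k K α)) ≤ δ := by
  classical
  set N := M.natDegree with hN
  have hM0 : M ≠ 0 := by
    rintro rfl
    exact h1 (by rw [Polynomial.derivative_zero, Polynomial.eval_zero])
  have hN0 : 0 < N := by
    rcases Nat.eq_zero_or_pos N with h | h
    · exfalso
      apply h1
      rw [Polynomial.eq_C_of_natDegree_eq_zero h, Polynomial.derivative_C, Polynomial.eval_zero]
    · exact h
  have inj : Function.Injective (algebraMap K C) := (algebraMap K C).injective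
  set l := a (algebraMap K C (M.coeff N)) with hl
  have hl0 : 0 < l := a.pos ((map_ne_zero _).2 (Polynomial.leadingCoeff_ne_zero.2 hM0))
  set c := a (algebraMap K C (M.derivative.eval x₀)) with hc
  have hc0 : 0 < c := a.pos ((map_ne_zero _).2 h1)
  set B : ℝ := a (algebraMap K C x₀) + 1 with hB
  have hB1 : 1 ≤ B := by
    have := a.nonneg (algebraMap K C x₀)
    linarith
  have hBx : a (algebraMap K C x₀) ≤ B := by linarith
  have hB0 : 0 < B := by linarith
  set A : ℝ := 1 + ∑ j ∈ Finset.range (N + 1), a (algebraMap K C (M.coeff j)) with hA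
  have hAs : 0 ≤ ∑ j ∈ Finset.range (N + 1), a (algebraMap K C (M.coeff j)) :=
    Finset.sum_nonneg fun j _ => a.nonneg _
  have hA1 : 1 ≤ A := by linarith
  have hAM : ∀ j, a (algebraMap K C (M.coeff j)) ≤ A := by
    intro j
    by_cases hj : j ≤ N
    · have h2 := Finset.single_le_sum (f := fun j => a (algebraMap K C (M.coeff j)))
        (fun i _ => a.nonneg _) (Finset.mem_range.2 (Nat.lt_succ_of_le hj))
      have h3 : a (algebraMap K C (M.coeff j)) ≤
          ∑ j ∈ Finset.range (N + 1), a (algebraMap K C (M.coeff j)) := h2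
      linarith
    · rw [Polynomial.coeff_eq_zero_of_natDegree_lt (not_le.1 hj), map_zero, map_zero]
      linarith
  set D : ℝ := min (min δ 1) (c / (2 * A * B ^ N)) with hDdef
  have hD0 : 0 < D := lt_min (lt_min hδ one_pos) (by positivity)
  have hDδ : D ≤ δ := (min_le_left _ _).trans (min_le_left _ _)
  have hD1 : D ≤ 1 := (min_le_left _ _).trans (min_le_right _ _)
  have hDc : A * (D * B ^ N) ≤ c / 2 := by
    have h2 : D ≤ c / (2 * A * B ^ N) := min_le_right _ _
    rw [le_div_iff₀ (by positivity)] at h2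
    nlinarith
  set η : ℝ := min (min 1 (l / 2)) (min (c / (2 * B ^ N)) (l * D ^ N / (2 * B ^ N))) with hη
  have hη0 : 0 < η := lt_min (lt_min one_pos (by positivity)) (lt_min (by positivity)
    (by positivity))
  have hη1 : η ≤ 1 := (min_le_left _ _).trans (min_le_left _ _)
  have hηl : η ≤ l / 2 := (min_le_left _ _).trans (min_le_right _ _)
  have hηc : η * B ^ N ≤ c / 2 := by
    have h2 : η ≤ c / (2 * B ^ N) := (min_le_right _ _).trans (min_le_left _ _)
    rw [le_div_iff₀ (by positivity)] at h2
    nlinarith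
  have hηD : η * B ^ N ≤ l * D ^ N / 2 := by
    have h2 : η ≤ l * D ^ N / (2 * B ^ N) := (min_le_right _ _).trans (min_le_right _ _)
    rw [le_div_iff₀ (by positivity)] at h2
    nlinarith
  refine ⟨η, hη0, fun f hfN hf => ?_⟩
  set g : Polynomial K := f.map (algebraMap k K) with hg
  set G : Polynomial C := g.map (algebraMap K C) with hG
  have hgN : g.natDegree ≤ N := Polynomial.natDegree_map_le.trans hfN
  have hGN : G.natDegree ≤ N := Polynomial.natDegree_map_le.trans hgN
  have hgc : ∀ j, g.coeff j = algebraMap k K (f.coeff j) := fun j => Polynomial.coeff_map _ _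
  -- the difference
  set H : Polynomial C := (g - M).map (algebraMap K C) with hH
  have hHN : H.natDegree ≤ N := Polynomial.natDegree_map_le.trans
    ((Polynomial.natDegree_sub_le _ _).trans (max_le hgN le_rfl))
  have hHco : ∀ j, H.coeff j = algebraMap K C (g.coeff j) - algebraMap K C (M.coeff j) := by
    intro j
    rw [hH, Polynomial.coeff_map, Polynomial.coeff_sub, map_sub]
  have hGco : ∀ j, G.coeff j = algebraMap K C (g.coeff j) := fun j => Polynomial.coeff_map _ _
  have hHder : H.derivative.eval (algebraMap K C x₀) =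
      algebraMap K C (g.derivative.eval x₀) - algebraMap K C (M.derivative.eval x₀) := by
    have h2 : H.derivative = (g.derivative - M.derivative).map (algebraMap K C) := by
      rw [hH, Polynomial.derivative_map, Polynomial.derivative_sub]
    rw [h2, Polynomial.eval_map_algebraMap, Polynomial.aeval_algebraMap_apply_eq_algebraMap_eval,
      Polynomial.eval_sub, map_sub]
  have hHc : ∀ j, a (H.coeff j) ≤ η := by
    intro j
    rw [hHco, hgc, ← map_sub]
    exact hf j
  obtain ⟨e1, e2⟩ := sum_le ha H hη0.le hB1 hHN hHc hBx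
  have e3 : a (G.eval (algebraMap K C x₀)) ≤ η * B ^ N := by
    have h2 : G.eval (algebraMap K C x₀) = H.eval (algebraMap K C x₀) := by
      rw [hH, Polynomial.map_sub, Polynomial.eval_sub, ← hG, Polynomial.eval_map_algebraMap M,
        Polynomial.aeval_algebraMap_apply_eq_algebraMap_eval, h0, map_zero, sub_zero]
    rw [h2]
    exact e1
  have e4 : c ≤ a (algebraMap K C (g.derivative.eval x₀)) := by
    by_contra hlt
    push Not at hlt
    have h2 : algebraMap K C (M.derivative.eval x₀) = algebraMap K C (g.derivative.eval x₀) -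
        H.derivative.eval (algebraMap K C x₀) := by
      rw [hHder]
      ring
    have h3 : c ≤ max (a (algebraMap K C (g.derivative.eval x₀)))
        (a (H.derivative.eval (algebraMap K C x₀))) := by
      rw [hc, h2]
      exact ultra_sub ha _ _
    rcases le_max_iff.1 h3 with h4 | h4
    · exact absurd h4 (not_le.2 hlt)
    · have := h4.trans (e2.trans hηc)
      linarith
  have e5 : l ≤ a (G.coeff N) := by
    by_contra hlt
    push Not at hlt
    have h2 : algebraMap K C (M.coeff N) = G.coeff N - H.coeff N := by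
      rw [hHco, hGco]
      ring
    have h3 : l ≤ max (a (G.coeff N)) (a (H.coeff N)) := by
      rw [hl, h2]
      exact ultra_sub ha _ _
    rcases le_max_iff.1 h3 with h4 | h4
    · exact absurd h4 (not_le.2 hlt)
    · have := h4.trans ((hHc N).trans hηl)
      linarith
  have hGN' : G.natDegree = N := by
    refine le_antisymm hGN (Polynomial.le_natDegree_of_ne_zero fun h => ?_)
    rw [h, map_zero] at e5
    exact absurd e5 (not_le.2 hl0)
  have hGlc : G.leadingCoeff = G.coeff N := by rw [Polynomial.leadingCoeff, hGN']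
  -- the nearest root
  obtain ⟨α, hα, hαD⟩ : ∃ α ∈ G.roots, a (algebraMap K C x₀ - α) < D := by
    by_contra hno
    push Not at hno
    have h2 := pow_le_prod G.roots (algebraMap K C x₀) hD0.le hno
    have h3 : Multiset.card G.roots = N := by
      rw [← hGN']
      exact (IsAlgClosed.splits G).natDegree_eq_card_roots.symm
    have h4 : G.eval (algebraMap K C x₀) =
        G.leadingCoeff * (G.roots.map fun r => algebraMap K C x₀ - r).prod :=
      (IsAlgClosed.splits G).eval_eq_prod_roots _
    rw [h4, map_mul, hGlc] at e3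
    rw [h3] at h2
    have h5 : l * D ^ N ≤ l * D ^ N / 2 :=
      (mul_le_mul e5 h2 (pow_nonneg hD0.le _) (a.nonneg _)).trans (e3.trans hηD)
    have h6 : 0 < l * D ^ N := by positivity
    linarith
  have hGα : G.eval α = 0 := (Polynomial.mem_roots'.1 hα).2
  have hαB : a α ≤ B := by
    have h2 : α = algebraMap K C x₀ - (algebraMap K C x₀ - α) := by ring
    rw [h2]
    exact (ultra_sub ha _ _).trans (max_le hBx (hαD.le.trans (hD1.trans hB1)))
  obtain ⟨x, hx⟩ := root_mem ha hK g (A := A) (B := B) (D := D) (N := N) (by linarith) hB1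
    (hD1.trans hB1) hgN (fun j => by
      have h2 : algebraMap K C (g.coeff j) = H.coeff j + algebraMap K C (M.coeff j) := by
        rw [hHco]
        ring
      rw [h2]
      exact (ha _ _).trans (max_le ((hHc j).trans (hη1.trans hA1)) (hAM j))) hBx hαB hαD.le rfl
    (hc0.trans_le e4) (by linarith) hGα
  have hgx : g.eval x = 0 := by
    apply inj
    rw [map_zero, ← Polynomial.aeval_algebraMap_apply_eq_algebraMap_eval, hx,
      ← Polynomial.eval_map_algebraMap]
    exact hGα
  have hf0 : f ≠ 0 := by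
    rintro rfl
    rw [hG, hg, Polynomial.map_zero, Polynomial.map_zero, Polynomial.coeff_zero, map_zero] at e5
    exact absurd e5 (not_le.2 hl0)
  obtain ⟨y, hy⟩ := hk x ⟨f, hf0, by rw [← Polynomial.eval_map_algebraMap]; exact hgx⟩
  refine ⟨y, ?_, ?_⟩
  · apply (algebraMap k K).injective
    rw [map_zero, ← Polynomial.aeval_algebraMap_apply_eq_algebraMap_eval, hy,
      ← Polynomial.eval_map_algebraMap]
    exact hgx
  · rw [hy, map_sub, hx]
    exact hαD.le.trans hDδ

end newton

end Pool.Agent.L7h29.AS
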