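import Pool.Agent.L7h29.AS.Nak
import Pool.Agent.N150.JN.DimImage

/-!
# Smooth closed subschemes over a dense subfield (MP_db3ab1_ag)
-/

set_option autoImplicit false
set_option linter.unusedSectionVars false

open MvPolynomial Pool.Agent.Y129.TA Pool.Agent.Y129.TB Pool.Agent.R388.TP Pool.Agent.N150.JN

namespace Pool.Agent.L7h29.AS

/-- A minor of the Jacobian matrix: the determinant of the partial derivatives of the polynomials
`g (i a)` with respect to the coordinates `j b`. -/
noncomputable def minor {A σ τ : Type} [CommRing A] {c : ℕ} (g : τ → MvPolynomial σ A)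
    (i : Fin c → τ) (j : Fin c → σ) : MvPolynomial σ A :=
  Matrix.det (Matrix.of fun a b => pderiv (j b) (g (i a)))

theorem map_minor {A A' σ τ : Type} [CommRing A] [CommRing A'] {c : ℕ} (φ : A →+* A')
    (g : τ → MvPolynomial σ A) (i : Fin c → τ) (j : Fin c → σ) :
    MvPolynomial.map φ (minor g i j) = minor (fun l => MvPolynomial.map φ (g l)) i j := by
  unfold minor
  rw [RingHom.map_det]
  congr 1
  ext a b
  simp [pderiv_map]

theorem minor_homogeneous {A σ τ : Type} [CommRing A] {c : ℕ} {g : τ → MvPolynomial σ A}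
    {D : τ → ℕ} (hg : ∀ l, (g l).IsHomogeneous (D l)) (i : Fin c → τ) (j : Fin c → σ) :
    (minor g i j).IsHomogeneous (∑ a, (D (i a) - 1)) := by
  classical
  unfold minor
  rw [Matrix.det_apply']
  refine IsHomogeneous.sum _ _ _ fun π _ => ?_
  have h1 : (∏ a, (Matrix.of fun a b => pderiv (j b) (g (i a))) (π a) a).IsHomogeneous
      (∑ a, (D (i (π a)) - 1)) := by
    refine IsHomogeneous.prod _ _ _ fun a _ => ?_
    exact (hg (i (π a))).pderiv
  have h2 : ∑ a, (D (i (π a)) - 1) = ∑ a, (D (i a) - 1) :=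
    Equiv.sum_comp π fun a => D (i a) - 1
  rw [h2] at h1
  have h3 : (((Equiv.Perm.sign π : ℤˣ) : ℤ) : MvPolynomial σ A).IsHomogeneous 0 := by
    have h4 : (((Equiv.Perm.sign π : ℤˣ) : ℤ) : MvPolynomial σ A) =
        C (((Equiv.Perm.sign π : ℤˣ) : ℤ) : A) := by simp
    rw [h4]
    exact isHomogeneous_C _ _
  have h5 := h3.mul h1
  rwa [zero_add] at h5

/-- A chart at the point `x` of the closed subscheme of projective space defined by the forms `g`:
there are `c` of the forms and a form `h` with `h x ≠ 0` such that `h * g l` lies in the ideal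
generated by the `c` forms for all `l` (so that near `x` the subscheme is defined by these `c` forms),
and a minor of order `c` of their Jacobian matrix does not vanish at `x`. -/
def SmoothAt {C K : Type} [Field C] [Field K] [Algebra K C] {σ τ : Type}
    (g : τ → MvPolynomial σ K) (x : σ → C) : Prop :=
  ∃ (c : ℕ) (i : Fin c → τ) (j : Fin c → σ) (h : MvPolynomial σ K) (e : ℕ),
    h.IsHomogeneous e ∧ aeval x h ≠ 0 ∧
      (∀ l, h * g l ∈ Ideal.span (Set.range fun a => g (i a))) ∧ aeval x (minor g i j) ≠ 0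

/-- The closed subscheme of projective space over `K` defined by the forms `g` is smooth
(Jacobian criterion, at all points over `C`). -/
def SmoothScheme (C : Type) {K : Type} [Field C] [Field K] [Algebra K C] {σ τ : Type}
    (g : τ → MvPolynomial σ K) : Prop :=
  ∀ x : σ → C, x ≠ 0 → (∀ l, aeval x (g l) = 0) → SmoothAt g x

/-- The (cone over the) set of the points over `C` of the closed subscheme defined by the forms
`g`. -/
def zeros (C : Type) {K : Type} [Field C] [Field K] [Algebra K C] {σ τ : Type}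
    (g : τ → MvPolynomial σ K) : Set (σ → C) := {x | ∀ l, aeval x (g l) = 0}

/-- Finitely many charts suffice. -/
theorem exists_charts {C K : Type} [Field C] [Field K] [Algebra K C] {σ τ : Type} [Finite σ]
    [Finite τ] (g : τ → MvPolynomial σ K) (hg : SmoothScheme C g) :
    ∃ (w : Type) (_ : Finite w) (c : w → ℕ) (i : ∀ t : w, Fin (c t) → τ)
      (j : ∀ t : w, Fin (c t) → σ) (h : w → MvPolynomial σ K) (e : w → ℕ)
      (A : ∀ t : w, τ → Fin (c t) → MvPolynomial σ K),
      (∀ t, (h t).IsHomogeneous (e t)) ∧ (∀ t l, ∑ a, A t l a * g (i t a) = h t * g l) ∧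
      ∀ x : σ → C, (∀ l, aeval x (g l) = 0) → (∀ t, aeval x (h t * minor g (i t) (j t)) = 0) →
        x = 0 := by
  classical
  let W : Set (MvPolynomial σ K) := {f | ∃ (c : ℕ) (i : Fin c → τ) (j : Fin c → σ)
    (h : MvPolynomial σ K) (e : ℕ) (A : τ → Fin c → MvPolynomial σ K), h.IsHomogeneous e ∧
      (∀ l, ∑ a, A l a * g (i a) = h * g l) ∧ f = h * minor g i j}
  obtain ⟨S, hS, hSW⟩ := (Submodule.fg_span_iff_fg_span_finset_subset
    (R := MvPolynomial σ K) (Set.range g ∪ W)).1 (IsNoetherian.noetherian _)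
  have hw : ∀ t : {f : MvPolynomial σ K // f ∈ S ∧ f ∈ W}, ∃ (c : ℕ) (i : Fin c → τ)
      (j : Fin c → σ) (h : MvPolynomial σ K) (e : ℕ) (A : τ → Fin c → MvPolynomial σ K),
      h.IsHomogeneous e ∧ (∀ l, ∑ a, A l a * g (i a) = h * g l) ∧ t.1 = h * minor g i j :=
    fun t => t.2.2
  choose c i j h e A h1 h2 h3 using hw
  have hfin : Finite {f : MvPolynomial σ K // f ∈ S ∧ f ∈ W} :=
    Finite.of_injective (fun t => (⟨t.1, t.2.1⟩ : {f // f ∈ S})) fun a b hab => by
      apply Subtype.ext
      exact congrArg (fun z : {f // f ∈ S} => z.1) hab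
  refine ⟨_, hfin, c, i, j, h, e, A, h1, h2, fun x hx hxt => ?_⟩
  by_contra hx0
  obtain ⟨c', i', j', h', e', hh', hh0, hspan, hmin⟩ := hg x hx0 hx
  choose A' hA' using fun l => (Ideal.mem_span_range_iff_exists_fun).1 (hspan l)
  have hmem : h' * minor g i' j' ∈ W := ⟨c', i', j', h', e', A', hh', hA', rfl⟩
  have hker : Submodule.span (MvPolynomial σ K) (Set.range g ∪ W) ≤
      RingHom.ker (aeval x : MvPolynomial σ K →ₐ[K] C) := by
    rw [hSW, Submodule.span_le]
    intro f hf
    rcases hS hf with ⟨l, rfl⟩ | hfW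
    · exact hx l
    · have h4 := hxt ⟨f, hf, hfW⟩
      rw [← h3 ⟨f, hf, hfW⟩] at h4
      exact h4
  have h5 : aeval x (h' * minor g i' j') = 0 := hker (Submodule.subset_span (Or.inr hmem))
  rw [map_mul] at h5
  exact (mul_ne_zero hh0 hmin) h5

/-- Finitely many polynomials over `K` are values of polynomials with indeterminate coefficients. -/
theorem exists_lift {K k : Type} [Field K] [Field k] [Algebra k K] {ι σ : Type} [Finite ι]
    (P : ι → MvPolynomial σ K) : ∃ (m : ℕ) (s : Fin m → K)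
      (Q : ι → MvPolynomial σ (MvPolynomial (Fin m) k)),
      (∀ i, MvPolynomial.map (aeval s : MvPolynomial (Fin m) k →ₐ[k] K).toRingHom (Q i) = P i) ∧
      ∀ i D, (P i).IsHomogeneous D → (Q i).IsHomogeneous D := by
  classical
  have : Fintype ι := Fintype.ofFinite ι
  let S : Finset K := Finset.univ.biUnion fun i => (P i).support.image fun μ => coeff μ (P i)
  have hS : ∀ i, ∀ μ ∈ (P i).support, coeff μ (P i) ∈ S := fun i μ hμ =>
    Finset.mem_biUnion.2 ⟨i, Finset.mem_univ i, Finset.mem_image.2 ⟨μ, hμ, rfl⟩⟩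
  let s : Fin S.card → K := fun a => (S.equivFin.symm a).1
  let idx : K → MvPolynomial (Fin S.card) k := fun x =>
    if hx : x ∈ S then X (S.equivFin ⟨x, hx⟩) else 0
  have hidx : ∀ x ∈ S, aeval s (idx x) = x := by
    intro x hx
    have h1 : idx x = X (S.equivFin ⟨x, hx⟩) := dif_pos hx
    rw [h1, aeval_X]
    simp [s]
  refine ⟨S.card, s, fun i => ∑ μ ∈ (P i).support, monomial μ (idx (coeff μ (P i))),
    fun i => ?_, fun i D hD => ?_⟩
  · rw [map_sum]
    conv_rhs => rw [← support_sum_monomial_coeff (P i)]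
    refine Finset.sum_congr rfl fun μ hμ => ?_
    rw [map_monomial]
    congr 1
    exact hidx _ (hS i μ hμ)
  · refine IsHomogeneous.sum _ _ _ fun μ hμ => ?_
    refine isHomogeneous_monomial _ ?_
    have h1 : Finsupp.weight 1 μ = D := hD (mem_support_iff.1 hμ)
    rw [← h1, Finsupp.degree_eq_weight_one]
    rfl

variable {p : ℕ} [hp : Fact p.Prime] {C F : Type} [Field C] [Field F] [CharP F p]
variable {K k : Type} [Field K] [Field k] [Algebra K C] [Algebra k K] [Algebra k C]
  [IsScalarTower k K C]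

/-- Continuity of the coefficients. -/
theorem close (T : TiltPair p C F) {σ : Type} {m : ℕ} (s : Fin m → K)
    (Q : MvPolynomial σ (MvPolynomial (Fin m) k)) {δ : ℝ} (hδ : 0 < δ) :
    ∃ ε : ℝ, 0 < ε ∧ ∀ s' : Fin m → k,
      (∀ i, T.absK (algebraMap K C (algebraMap k K (s' i) - s i)) ≤ ε) → ∀ μ,
        T.absK (algebraMap K C (algebraMap k K (coeff μ
          (MvPolynomial.map (aeval s' : MvPolynomial (Fin m) k →ₐ[k] k).toRingHom Q)) -
          coeff μ (MvPolynomial.map (aeval s : MvPolynomial (Fin m) k →ₐ[k] K).toRingHom Q))) ≤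
            δ := by
  classical
  choose ε₁ hε₁ h1 using fun μ : Q.support => continuous_aeval T s (coeff μ.1 Q) hδ
  obtain ⟨ε, hε, h2⟩ := exists_pos_le ε₁ hε₁
  refine ⟨ε, hε, fun s' hs' μ => ?_⟩
  rw [coeff_map, coeff_map]
  by_cases hμ : μ ∈ Q.support
  · exact h1 ⟨μ, hμ⟩ s' fun i => (hs' i).trans (h2 _)
  · rw [notMem_support_iff.1 hμ, map_zero, map_zero, map_zero, sub_zero, map_zero, map_zero]
    exact hδ.le

theorem exists_normal' {a : AbsoluteValue C ℝ} {τ : Type} [Finite τ] {w : τ → C} (hw : w ≠ 0) :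
    ∃ b : C, b ≠ 0 ∧ (∀ t, a (b * w t) ≤ 1) ∧ ∃ t, a (b * w t) = 1 := by
  have hne : Nonempty τ := by
    by_contra h
    rw [not_nonempty_iff] at h
    exact hw (funext fun t => h.elim t)
  obtain ⟨t, ht⟩ := Finite.exists_max fun t => a (w t)
  have hwt : w t ≠ 0 := by
    intro h
    refine hw (funext fun s => ?_)
    have h1 := ht s
    rw [h, map_zero] at h1
    exact a.eq_zero.1 (le_antisymm h1 (a.nonneg _))
  have hp : 0 < a (w t) := a.pos hwt
  refine ⟨(w t)⁻¹, inv_ne_zero hwt, fun s => ?_, t, ?_⟩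
  · rw [map_mul, map_inv₀, inv_mul_le_iff₀ hp, mul_one]
    exact ht s
  · rw [inv_mul_cancel₀ hwt, map_one]

theorem aeval_tower {σ : Type} (P : MvPolynomial σ k) (x : σ → C) :
    aeval x (MvPolynomial.map (algebraMap k K) P) = aeval x P := by
  rw [aeval_map_algebraMap]

/-- Having no common zero is an open condition. -/
theorem open_no_zero [IsAlgClosed C] (T : TiltPair p C F) {σ κ : Type} [Fintype σ] [Finite κ]
    (P : κ → MvPolynomial σ K)
    (h0 : ∀ x : σ → C, (∀ a, aeval x (P a) = 0) → x = 0) : ∃ δ : ℝ, 0 < δ ∧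
      ∀ P' : κ → MvPolynomial σ k, (∀ a, ∃ D, (P' a).IsHomogeneous D) →
        (∀ a μ, T.absK (algebraMap K C (algebraMap k K (coeff μ (P' a)) - coeff μ (P a))) ≤ δ) →
        ∀ x : σ → C, (∀ a, aeval x (P' a) = 0) → x = 0 := by
  classical
  have : Fintype κ := Fintype.ofFinite κ
  have : Infinite C := IsAlgClosed.instInfinite
  have s1 : ∀ t : σ, ∃ δ : ℝ, 0 < δ ∧ ∀ v : σ → C, (∀ i, T.absK (v i) ≤ 1) →
      (∀ a, T.absK (eval v (MvPolynomial.map (algebraMap K C) (P a))) ≤ δ) →
      T.absK (eval v (X t)) ≤ 1 / 2 := by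
    intro t
    refine small T.ultraK _ _ (fun v hv => ?_) (by norm_num)
    have h1 := h0 v fun a => by
      rw [← eval_map_alg]
      exact hv a
    rw [eval_X, h1]
    rfl
  choose δ₁ hδ₁ h1 using s1
  obtain ⟨δ, hδ, h2⟩ := exists_pos_le δ₁ hδ₁
  refine ⟨δ, hδ, fun P' hP' hclose x hx => ?_⟩
  by_contra hx0
  obtain ⟨b, hb, hb1, t, ht⟩ := exists_normal' (a := T.absK) hx0
  have h3 : ∀ a, T.absK (eval (fun i => b * x i) (MvPolynomial.map (algebraMap K C) (P a))) ≤ δ := by
    intro a
    obtain ⟨D, hD⟩ := hP' a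
    have h4 : aeval (fun i => b * x i) (P' a) = 0 := by
      rw [aeval_smul hD, hx a, mul_zero]
    have h5 := abs_eval_le T (MvPolynomial.map (algebraMap k K) (P' a) - P a) hδ.le
      (fun μ => by rw [coeff_sub, coeff_map]; exact hclose a μ) (v := fun i => b * x i) hb1
    rw [map_sub, aeval_tower, h4, zero_sub, AbsoluteValue.map_neg] at h5
    rw [eval_map_alg]
    exact h5
  have h4 := h1 t (fun i => b * x i) hb1 fun a => (h3 a).trans (h2 t)
  rw [eval_X, ht] at h4
  norm_num at h4

end Pool.Agent.L7h29.AS
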